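import Pool.Agent.Helper95.SP.Base

set_option autoImplicit false

/-!
The forced moves downwards.
-/

namespace Pool.Agent.Helper95.SP

open Set Pool.Agent.Helper37.Paint

variable {q m : ℕ}

theorem alpha_sum_dec {F : Finset (Fin m)} {u : Fin m → ℕ} {j : Fin m} (hj : j ∈ F)
    (h : 0 < u j) : ∑ i ∈ F, dec u {j} i + 1 = ∑ i ∈ F, u i := by
  have h1 : ∑ i ∈ F, u i = ∑ i ∈ F, (dec u {j} i + if i = j then 1 else 0) := by
    refine Finset.sum_congr rfl fun i _ => ?_
    by_cases hi : i = j
    · subst hi
      simp only [dec, Finset.mem_singleton, if_true]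
      omega
    · simp [dec, hi]
  rw [h1, Finset.sum_add_distrib, Finset.sum_ite_eq', if_pos hj]

/-- Module Alpha2. -/
theorem alpha2 {tT nT : Fin q → ℕ} (θ : ℕ) (hθ : 0 < θ) (F : Finset (Fin m)) (p u : Fin m → ℕ)
    {tX nX : Bool → ℕ} {tY nY : Fin m → ℕ}
    (hT : ∀ i, tT i < nX false + θ + ∑ i, nT i)
    (hx : tX false < nX false + θ + ∑ i, nT i)
    (hσ : ∀ j ∈ F, tY j ≤ nY j + ∑ i, nT i + nX false + p j)
    (hν : ∀ j ∈ F, θ + u j ≤ nY j)
    (hs : tX true < nX true + ∑ j ∈ F, u j)
    (hn : ∑ j ∈ F, p j < nX true) : LW tT nT tX nX tY nY := by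
  obtain ⟨k, hk⟩ : ∃ k, tX true = k := ⟨_, rfl⟩
  induction k generalizing p u tX nX tY nY with
  | zero => exact LW.of_X true (by omega)
  | succ k ih =>
    by_cases hdead : tX true < nX true
    · exact LW.of_X true hdead
    have hpos : ∃ j ∈ F, 0 < u j := by
      by_contra hcon
      push Not at hcon
      have : ∑ j ∈ F, u j = 0 := Finset.sum_eq_zero fun j hj => by have := hcon j hj; omega
      omega
    obtain ⟨j, hj, huj⟩ := hpos
    by_cases hdead2 : tY j < nY j
    · exact LW.of_Y j hdead2
    have hνj := hν j hj
    have hσj := hσ j hj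
    have hsum := alpha_sum_dec hj huj
    have e1 : dec tX {true} true = tX true - 1 := by simp [dec]
    have e2 : dec tX {true} false = tX false := by simp [dec]
    have e3 : dec nX {true} true = nX true - 1 := by simp [dec]
    have e4 : dec nX {true} false = nX false := by simp [dec]
    have e5 : dec tY {j} j = tY j - 1 := by simp [dec]
    have e6 : dec nY {j} j = nY j - 1 := by simp [dec]
    have e7 : ∀ i, i ≠ j → dec tY {j} i = tY i := fun i hi => by simp [dec, hi]
    have e8 : ∀ i, i ≠ j → dec nY {j} i = nY i := fun i hi => by simp [dec, hi]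
    refine LW.step {true} {j} ?_ ?_ ?_ ?_
    · intro b hb
      rw [Finset.mem_singleton.1 hb]
      omega
    · intro i hi
      rw [Finset.mem_singleton.1 hi]
      omega
    · by_cases hp : p j = 0
      · refine LW.nw false j ?_ ?_ ?_
        · rw [e2, e4]
          omega
        · rw [e4, e5]
          omega
        · intro i _
          have := hT i
          rw [e4]
          omega
      · have hsp := alpha_sum_dec hj (Nat.pos_of_ne_zero hp)
        refine ih (dec p {j}) u ?_ ?_ ?_ hν ?_ ?_ ?_
        · intro i
          rw [e4]
          exact hT i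
        · rw [e2, e4]
          exact hx
        · intro i hi
          by_cases hij : i = j
          · subst hij
            have e9 : dec p {i} i = p i - 1 := by simp [dec]
            rw [e4, e5, e9]
            omega
          · have e9 : dec p {j} i = p i := by simp [dec, hij]
            rw [e4, e7 i hij, e9]
            exact hσ i hi
        · rw [e1, e3]
          omega
        · rw [e3]
          omega
        · rw [e1]
          omega
    · refine ih p (dec u {j}) hT ?_ ?_ ?_ ?_ hn ?_
      · rw [e2]
        exact hx
      · intro i hi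
        by_cases hij : i = j
        · subst hij
          rw [e5, e6]
          omega
        · rw [e7 i hij, e8 i hij]
          exact hσ i hi
      · intro i hi
        by_cases hij : i = j
        · subst hij
          have e9 : dec u {i} i = u i - 1 := by simp [dec]
          rw [e6, e9]
          omega
        · have e9 : dec u {j} i = u i := by simp [dec, hij]
          rw [e8 i hij, e9]
          exact hν i hi
      · rw [e1]
        omega
      · rw [e1]
        omega

/-- Module Alpha1 (uses alpha2). -/
theorem alpha1 {tT nT : Fin q → ℕ} (K θ pF uF : ℕ) (hθ : 0 < θ) (F : Finset (Fin m))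
    (hT : ∀ i, tT i < K + θ + ∑ i, nT i) (hs : ∑ i, nT i + θ ≤ F.card * uF)
    (hn : F.card * pF < K) :
    ∀ (D : ℕ) (C : Finset (Fin m)), 2 ^ (D + 1) ≤ C.card → Disjoint C F →
    ∀ (tX nX : Bool → ℕ) (tY nY : Fin m → ℕ) (p : Fin m → Bool → ℕ),
    (∀ b, K + D ≤ nX b) →
    (∀ j ∈ C, ∀ b, tX b < nX b + nY j + ∑ i, nT i) →
    (∀ j ∈ C, ∀ b, tY j ≤ nY j + ∑ i, nT i + nX b + p j b) →
    (∀ j ∈ C, p j false + p j true ≤ D) →
    (∀ j ∈ F, tY j ≤ nY j + ∑ i, nT i + K + pF) → (∀ j ∈ F, θ + uF ≤ nY j) →
    LW tT nT tX nX tY nY := by
  intro D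
  induction D using Nat.strong_induction_on with
  | _ D ihD =>
  intro C hC hCF tX nX tY nY p hK
  obtain ⟨s, hsum⟩ : ∃ s, tX false + tX true = s := ⟨_, rfl⟩
  induction s using Nat.strong_induction_on generalizing tX tY nY with
  | _ s ihs =>
  intro hg hσ hp hF1 hF2
  have hKf := hK false
  have hKt := hK true
  by_cases hA : ∀ b, tX b < nX b + θ + ∑ i, nT i
  · refine alpha2 θ hθ F (fun _ => pF) (fun _ => uF) ?_ (hA false) ?_ hF2 ?_ ?_
    · intro i
      have := hT i
      omega
    · intro j hj
      have := hF1 j hj
      omega
    · have := hA true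
      rw [Finset.sum_const, smul_eq_mul]
      omega
    · rw [Finset.sum_const, smul_eq_mul]
      omega
  push Not at hA
  obtain ⟨b₀, hb₀⟩ := hA
  have hYθ : ∀ j ∈ C, θ < nY j := fun j hj => by
    have := hg j hj b₀
    omega
  by_cases hdf : tX false < nX false
  · exact LW.of_X false hdf
  by_cases hdt : tX true < nX true
  · exact LW.of_X true hdt
  by_cases hdY : ∃ j, tY j < nY j
  · obtain ⟨j, hj⟩ := hdY
    exact LW.of_Y j hj
  push Not at hdf hdt hdY
  -- two disjoint subsets
  have hpow : 2 ^ (D + 1) = 2 ^ D + 2 ^ D := by rw [pow_succ]; ring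
  obtain ⟨S0, hS0, hS0c⟩ := Finset.exists_subset_card_eq (show 2 ^ D ≤ C.card by omega)
  have hrest : 2 ^ D ≤ (C \ S0).card := by
    rw [Finset.card_sdiff_of_subset hS0]
    omega
  obtain ⟨S1, hS1', hS1c⟩ := Finset.exists_subset_card_eq hrest
  have hS1 : S1 ⊆ C := hS1'.trans Finset.sdiff_subset
  have hS10 : ∀ j ∈ S1, j ∉ S0 := fun j hj => (Finset.mem_sdiff.1 (hS1' hj)).2
  have hF0 : ∀ j ∈ F, j ∉ S0 := fun j hj hj' => Finset.disjoint_left.1 hCF (hS0 hj') hj
  have hF1' : ∀ j ∈ F, j ∉ S1 := fun j hj hj' => Finset.disjoint_left.1 hCF (hS1 hj') hj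
  have hpow1 : 0 < 2 ^ D := by positivity
  have hne0 : S0.Nonempty := Finset.card_pos.1 (by omega)
  have hne1 : S1.Nonempty := Finset.card_pos.1 (by omega)
  have eXf : ∀ (x : Bool → ℕ), dec x {false} false = x false - 1 ∧ dec x {false} true = x true :=
    fun x => ⟨by simp [dec], by simp [dec]⟩
  have eXt : ∀ (x : Bool → ℕ), dec x {true} false = x false ∧ dec x {true} true = x true - 1 :=
    fun x => ⟨by simp [dec], by simp [dec]⟩
  have hnXpos : ∀ b, 0 < nX b := fun b => by
    have := hK b
    omega
  refine LW.step {false} S0 (fun b _ => hnXpos b) (fun j hj => ?_) ?_ ?_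
  · have := hYθ j (hS0 hj)
    omega
  · -- Left at the first call
    by_cases hz : ∃ j ∈ S0, p j true = 0
    · obtain ⟨j, hj, hpj⟩ := hz
      have h1 := hg j (hS0 hj) true
      have h2 := hσ j (hS0 hj) true
      have h3 := hYθ j (hS0 hj)
      have h4 := hdY j
      refine LW.nw true j ?_ ?_ ?_
      · rw [(eXf tX).2, (eXf nX).2]
        omega
      · rw [(eXf nX).2, dec_of_mem hj]
        omega
      · intro i _
        have := hT i
        rw [(eXf nX).2]
        omega
    · push Not at hz
      obtain ⟨j₁, hj₁⟩ := hne0
      have hD : 0 < D := by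
        have h1 := hp j₁ (hS0 hj₁)
        have h2 := hz j₁ hj₁
        omega
      refine ihD (D - 1) (by omega) S0 ?_ ?_ _ _ _ _ (fun j b => if b then p j true - 1 else
        p j false) ?_ ?_ ?_ ?_ ?_ ?_
      · rw [hS0c]
        exact Nat.pow_le_pow_right (by norm_num) (by omega)
      · exact Finset.disjoint_of_subset_left hS0 hCF
      · intro b
        cases b
        · rw [(eXf nX).1]
          omega
        · rw [(eXf nX).2]
          omega
      · intro j hj b
        have h1 := hg j (hS0 hj) b
        have h2 := hnXpos b
        cases b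
        · rw [(eXf tX).1, (eXf nX).1]
          omega
        · rw [(eXf tX).2, (eXf nX).2]
          omega
      · intro j hj b
        have h1 := hσ j (hS0 hj) b
        have h2 := hz j hj
        have h3 := hYθ j (hS0 hj)
        have h4 := hdY j
        rw [dec_of_mem hj]
        cases b
        · rw [(eXf nX).1]
          simp only [Bool.false_eq_true, if_false]
          omega
        · rw [(eXf nX).2]
          simp only [if_true]
          omega
      · intro j hj
        have h1 := hp j (hS0 hj)
        have h2 := hz j hj
        simp only [Bool.false_eq_true, if_false, if_true]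
        omega
      · intro j hj
        rw [dec_of_not_mem (hF0 j hj)]
        exact hF1 j hj
      · exact hF2
  · -- Down at the first call
    refine LW.step {true} S1 (fun b _ => hnXpos b) (fun j hj => ?_) ?_ ?_
    · rw [dec_of_not_mem (hS10 j hj)]
      have := hYθ j (hS1 hj)
      omega
    · -- Left at the second call
      by_cases hz : ∃ j ∈ S1, p j false = 0
      · obtain ⟨j, hj, hpj⟩ := hz
        have h1 := hg j (hS1 hj) false
        have h2 := hσ j (hS1 hj) false
        have h3 := hYθ j (hS1 hj)
        have h4 := hdY j
        refine LW.nw false j ?_ ?_ ?_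
        · rw [(eXt _).1, (eXf tX).1, (eXt nX).1, dec_of_not_mem (hS10 j hj)]
          omega
        · rw [(eXt nX).1, dec_of_mem hj, dec_of_not_mem (hS10 j hj), dec_of_not_mem (hS10 j hj)]
          omega
        · intro i _
          have := hT i
          rw [(eXt nX).1, dec_of_not_mem (hS10 j hj)]
          omega
      · push Not at hz
        obtain ⟨j₁, hj₁⟩ := hne1
        have hD : 0 < D := by
          have h1 := hp j₁ (hS1 hj₁)
          have h2 := hz j₁ hj₁
          omega
        refine ihD (D - 1) (by omega) S1 ?_ ?_ _ _ _ _ (fun j b => if b then p j true else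
          p j false - 1) ?_ ?_ ?_ ?_ ?_ ?_
        · rw [hS1c]
          exact Nat.pow_le_pow_right (by norm_num) (by omega)
        · exact Finset.disjoint_of_subset_left hS1 hCF
        · intro b
          cases b
          · rw [(eXt nX).1]
            omega
          · rw [(eXt nX).2]
            omega
        · intro j hj b
          have h1 := hg j (hS1 hj) b
          have h2 := hnXpos b
          rw [dec_of_not_mem (hS10 j hj)]
          cases b
          · rw [(eXt _).1, (eXf tX).1, (eXt nX).1]
            omega
          · rw [(eXt _).2, (eXf tX).2, (eXt nX).2]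
            omega
        · intro j hj b
          have h1 := hσ j (hS1 hj) b
          have h2 := hz j hj
          have h3 := hYθ j (hS1 hj)
          have h4 := hdY j
          rw [dec_of_mem hj, dec_of_not_mem (hS10 j hj), dec_of_not_mem (hS10 j hj)]
          cases b
          · rw [(eXt nX).1]
            simp only [Bool.false_eq_true, if_false]
            omega
          · rw [(eXt nX).2]
            simp only [if_true]
            omega
        · intro j hj
          have h1 := hp j (hS1 hj)
          have h2 := hz j hj
          simp only [Bool.false_eq_true, if_false, if_true]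
          omega
        · intro j hj
          rw [dec_of_not_mem (hF1' j hj), dec_of_not_mem (hF0 j hj), dec_of_not_mem (hF0 j hj)]
          exact hF1 j hj
        · intro j hj
          rw [dec_of_not_mem (hF0 j hj)]
          exact hF2 j hj
    · -- Down at the second call
      refine ihs (dec (dec tX {false}) {true} false + dec (dec tX {false}) {true} true) ?_ _ _ _
        rfl ?_ ?_ hp ?_ ?_
      · rw [(eXt _).1, (eXt _).2, (eXf tX).1, (eXf tX).2]
        omega
      · intro j hj b
        have h1 := hg j hj b
        have h2 := hYθ j hj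
        have h3 : nY j ≤ dec (dec nY S0) S1 j + 1 := by
          by_cases hj1 : j ∈ S1
          · rw [dec_of_mem hj1, dec_of_not_mem (hS10 j hj1)]
            omega
          · rw [dec_of_not_mem hj1]
            exact le_dec _ _ _
        cases b
        · rw [(eXt _).1, (eXf tX).1]
          omega
        · rw [(eXt _).2, (eXf tX).2]
          omega
      · intro j hj b
        have h1 := hσ j hj b
        have h2 := hYθ j hj
        have h4 := hdY j
        by_cases hj1 : j ∈ S1
        · rw [dec_of_mem hj1, dec_of_mem hj1, dec_of_not_mem (hS10 j hj1),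
            dec_of_not_mem (hS10 j hj1)]
          omega
        · rw [dec_of_not_mem hj1, dec_of_not_mem hj1]
          by_cases hj0 : j ∈ S0
          · rw [dec_of_mem hj0, dec_of_mem hj0]
            omega
          · rw [dec_of_not_mem hj0, dec_of_not_mem hj0]
            exact h1
      · intro j hj
        rw [dec_of_not_mem (hF1' j hj), dec_of_not_mem (hF0 j hj), dec_of_not_mem (hF1' j hj),
          dec_of_not_mem (hF0 j hj)]
        exact hF1 j hj
      · intro j hj
        rw [dec_of_not_mem (hF1' j hj), dec_of_not_mem (hF0 j hj)]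
        exact hF2 j hj

end Pool.Agent.Helper95.SP
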