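import Pool.Agent.Helper37.PaintBase

set_option autoImplicit false

/-!
The join of a clique with a complete bipartite graph whose first side has two vertices, and the
basic moves of Lister on it.
-/

namespace Pool.Agent.Helper95.SP

open Set Pool.Agent.Helper37.Paint

/-- The vertices: `q` clique vertices, two vertices on the first side, `m` leaves. -/
inductive Vx (q m : ℕ) where
  | T (i : Fin q) : Vx q m
  | X (b : Bool) : Vx q m
  | Y (j : Fin m) : Vx q m

variable {q m : ℕ}

/-- `Vx q m` as a sum type. -/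
def vxEquiv (q m : ℕ) : Vx q m ≃ (Fin q ⊕ (Bool ⊕ Fin m)) where
  toFun v := match v with
    | .T i => .inl i
    | .X b => .inr (.inl b)
    | .Y j => .inr (.inr j)
  invFun v := match v with
    | .inl i => .T i
    | .inr (.inl b) => .X b
    | .inr (.inr j) => .Y j
  left_inv v := by cases v <;> rfl
  right_inv v := by rcases v with i | b | j <;> rfl

instance : Fintype (Vx q m) := Fintype.ofEquiv _ (vxEquiv q m).symm

/-- Adjacency: everything is adjacent except two vertices of the same side. -/
def vAdj : Vx q m → Vx q m → Prop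
  | .T i, .T j => i ≠ j
  | .T _, .X _ => True
  | .T _, .Y _ => True
  | .X _, .T _ => True
  | .X _, .X _ => False
  | .X _, .Y _ => True
  | .Y _, .T _ => True
  | .Y _, .X _ => True
  | .Y _, .Y _ => False

/-- The graph: a clique on `q` vertices joined to a complete bipartite graph on `2 + m`. -/
def gr (q m : ℕ) : SimpleGraph (Vx q m) where
  Adj := vAdj
  symm := ⟨by
    rintro (i | b | j) (i' | b' | j') h <;> simp only [vAdj] at h ⊢
    exact fun e => h e.symm⟩
  loopless := ⟨by
    rintro (i | b | j) h <;> simp [vAdj] at h⟩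

/-- A function on the vertices from its three parts. -/
def asm (u : Fin q → ℕ) (v : Bool → ℕ) (w : Fin m → ℕ) : Vx q m → ℕ
  | .T i => u i
  | .X b => v b
  | .Y j => w j

/-- Lister wins from the position with tokens `tT, tX, tY` and needs `nT, nX, nY`. -/
def LW (tT nT : Fin q → ℕ) (tX nX : Bool → ℕ) (tY nY : Fin m → ℕ) : Prop :=
  ¬ PW (gr q m) (asm tT tX tY) (asm nT nX nY)

variable {tT nT : Fin q → ℕ} {tX nX : Bool → ℕ} {tY nY : Fin m → ℕ}

theorem LW.mono {tT' nT' : Fin q → ℕ} {tX' nX' : Bool → ℕ} {tY' nY' : Fin m → ℕ}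
    (h : LW tT nT tX nX tY nY) (h1 : ∀ i, tT' i ≤ tT i) (h2 : ∀ i, nT i ≤ nT' i)
    (h3 : ∀ b, tX' b ≤ tX b) (h4 : ∀ b, nX b ≤ nX' b)
    (h5 : ∀ j, tY' j ≤ tY j) (h6 : ∀ j, nY j ≤ nY' j) : LW tT' nT' tX' nX' tY' nY' := by
  intro hp
  refine h (PW.mono hp ?_ ?_)
  · rintro (i | b | j)
    · exact h1 i
    · exact h3 b
    · exact h5 j
  · rintro (i | b | j)
    · exact h2 i
    · exact h4 b
    · exact h6 j

theorem LW.of_X (b : Bool) (h : tX b < nX b) : LW tT nT tX nX tY nY := fun hp =>
  absurd (hp.le (.X b)) (not_le.2 h)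

theorem LW.of_Y (j : Fin m) (h : tY j < nY j) : LW tT nT tX nX tY nY := fun hp =>
  absurd (hp.le (.Y j)) (not_le.2 h)

theorem LW.of_T (i : Fin q) (h : tT i < nT i) : LW tT nT tX nX tY nY := fun hp =>
  absurd (hp.le (.T i)) (not_le.2 h)

/-- A clique whose total need exceeds all its numbers of tokens is lost for Painter. -/
theorem not_PW_of_clique {V : Type} {G : SimpleGraph V} (K : Finset V)
    (hK : ∀ u ∈ K, ∀ v ∈ K, u ≠ v → G.Adj u v) {t n : V → ℕ} (D : ℕ)
    (h1 : ∀ v ∈ K, 0 < n v → t v ≤ D) (h2 : D < ∑ v ∈ K, n v) : ¬ PW G t n := by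
  classical
  refine not_PW_of_inv (fun t n => ∃ D, (∀ v ∈ K, 0 < n v → t v ≤ D) ∧ D < ∑ v ∈ K, n v) ?_
    ⟨D, h1, h2⟩
  clear h1 h2 D t n
  rintro t n ⟨D, h1, h2⟩
  by_cases hdead : ∃ v, t v < n v
  · exact Or.inl hdead
  push Not at hdead
  have hpos : ∃ v ∈ K, 0 < n v := by
    by_contra hcon
    push Not at hcon
    have : ∑ v ∈ K, n v = 0 := Finset.sum_eq_zero fun v hv => by have := hcon v hv; omega
    omega
  obtain ⟨v₀, hv₀, hn₀⟩ := hpos
  have hD : 0 < D := by
    have := h1 v₀ hv₀ hn₀
    have := hdead v₀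
    omega
  refine Or.inr ⟨{v | v ∈ K ∧ 0 < n v}, ⟨v₀, hv₀, hn₀⟩, fun v hv => hv.2, ?_⟩
  intro I hI hind
  refine ⟨D - 1, ?_, ?_⟩
  · intro v hv hv0
    have hn : 0 < n v := lt_of_lt_of_le hv0 (Nat.sub_le _ _)
    have h3 := h1 v hv hn
    have : (t - one {v | v ∈ K ∧ 0 < n v}) v = t v - 1 := by
      rw [Pi.sub_apply, one_le_of_mem (show v ∈ {v | v ∈ K ∧ 0 < n v} from ⟨hv, hn⟩)]
    rw [this]
    omega
  · have hsum : ∑ v ∈ K, n v ≤ ∑ v ∈ K, (n - one I) v + 1 := by
      by_cases hIe : ∃ u, u ∈ I
      · obtain ⟨u, hu⟩ := hIe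
        have huK : u ∈ K := (hI hu).1
        have hpt : ∀ v ∈ K, n v ≤ (n - one I) v + (if v = u then 1 else 0) := by
          intro v hv
          by_cases hvu : v = u
          · subst hvu
            rw [Pi.sub_apply, one_le_of_mem hu, if_pos rfl]
            omega
          · have : v ∉ I := by
              intro hvI
              exact hind hvI hu hvu (hK v hv u huK hvu)
            rw [Pi.sub_apply, one_of_not_mem this, if_neg hvu]
            omega
        calc ∑ v ∈ K, n v ≤ ∑ v ∈ K, ((n - one I) v + (if v = u then 1 else 0)) :=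
              Finset.sum_le_sum hpt
          _ = ∑ v ∈ K, (n - one I) v + 1 := by
              rw [Finset.sum_add_distrib, Finset.sum_ite_eq' K u, if_pos huK]
      · push Not at hIe
        have : ∑ v ∈ K, n v = ∑ v ∈ K, (n - one I) v := by
          refine Finset.sum_congr rfl fun v _ => ?_
          rw [Pi.sub_apply, one_of_not_mem (hIe v)]
          omega
        omega
    omega

theorem sum_vx (f : Vx q m → ℕ) :
    ∑ v, f v = ∑ i, f (.T i) + (∑ b, f (.X b) + ∑ j, f (.Y j)) := by
  rw [← Equiv.sum_comp (vxEquiv q m).symm f, Fintype.sum_sum_type, Fintype.sum_sum_type]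
  rfl

/-- The terminal position: an edge `x y` together with the clique. -/
theorem LW.nw (b : Bool) (j : Fin m) (hx : tX b < nX b + nY j + ∑ i, nT i)
    (hy : tY j < nX b + nY j + ∑ i, nT i)
    (hT : ∀ i, 0 < nT i → tT i < nX b + nY j + ∑ i, nT i) : LW tT nT tX nX tY nY := by
  classical
  let P : Vx q m → Prop := fun v => match v with
    | .T _ => True
    | .X b' => b' = b
    | .Y j' => j' = j
  have hS : ∑ v ∈ Finset.univ.filter P, asm nT nX nY v = ∑ i, nT i + (nX b + nY j) := by
    rw [Finset.sum_filter]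
    have h : ∀ v, (if P v then asm nT nX nY v else 0) =
        asm nT (fun b' => if b' = b then nX b' else 0) (fun j' => if j' = j then nY j' else 0)
          v := by
      rintro (i | b' | j')
      · exact if_pos trivial
      · by_cases hb : b' = b
        · rw [if_pos (show P (.X b') from hb)]
          simp [asm, hb]
        · rw [if_neg (show ¬ P (.X b') from hb)]
          simp [asm, hb]
      · by_cases hj : j' = j
        · rw [if_pos (show P (.Y j') from hj)]
          simp [asm, hj]
        · rw [if_neg (show ¬ P (.Y j') from hj)]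
          simp [asm, hj]
    rw [Finset.sum_congr rfl (fun v _ => h v), sum_vx]
    simp only [asm, Finset.sum_ite_eq', Finset.mem_univ, if_true]
  refine not_PW_of_clique (Finset.univ.filter P) ?_ (nX b + nY j + ∑ i, nT i - 1) ?_ ?_
  · rintro (i | b' | j') hu (i' | b'' | j'') hv hne
    · exact fun e => hne (by rw [e])
    · trivial
    · trivial
    · trivial
    · have h1 : b' = b := (Finset.mem_filter.1 hu).2
      have h2 : b'' = b := (Finset.mem_filter.1 hv).2
      exact absurd (by rw [h1, h2]) hne
    · trivial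
    · trivial
    · trivial
    · have h1 : j' = j := (Finset.mem_filter.1 hu).2
      have h2 : j'' = j := (Finset.mem_filter.1 hv).2
      exact absurd (by rw [h1, h2]) hne
  · rintro (i | b' | j') hu hpos
    · have := hT i hpos
      exact Nat.le_sub_one_of_lt this
    · have h1 : b' = b := (Finset.mem_filter.1 hu).2
      subst h1
      exact Nat.le_sub_one_of_lt hx
    · have h1 : j' = j := (Finset.mem_filter.1 hu).2
      subst h1
      exact Nat.le_sub_one_of_lt hy
  · rw [hS]
    omega

/-- The terminal position: a leaf together with the clique. -/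
theorem LW.f1 (j : Fin m) (hy : tY j < nY j + ∑ i, nT i)
    (hT : ∀ i, 0 < nT i → tT i < nY j + ∑ i, nT i) : LW tT nT tX nX tY nY := by
  classical
  let P : Vx q m → Prop := fun v => match v with
    | .T _ => True
    | .X _ => False
    | .Y j' => j' = j
  have hS : ∑ v ∈ Finset.univ.filter P, asm nT nX nY v = ∑ i, nT i + nY j := by
    rw [Finset.sum_filter]
    have h : ∀ v, (if P v then asm nT nX nY v else 0) =
        asm nT (fun _ => 0) (fun j' => if j' = j then nY j' else 0) v := by
      rintro (i | b' | j')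
      · exact if_pos trivial
      · exact if_neg (fun h => h)
      · by_cases hj : j' = j
        · rw [if_pos (show P (.Y j') from hj)]
          simp [asm, hj]
        · rw [if_neg (show ¬ P (.Y j') from hj)]
          simp [asm, hj]
    rw [Finset.sum_congr rfl (fun v _ => h v), sum_vx]
    simp only [asm, Finset.sum_ite_eq', Finset.mem_univ, if_true, Finset.sum_const_zero, zero_add]
  refine not_PW_of_clique (Finset.univ.filter P) ?_ (nY j + ∑ i, nT i - 1) ?_ ?_
  · rintro (i | b' | j') hu (i' | b'' | j'') hv hne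
    · exact fun e => hne (by rw [e])
    · trivial
    · trivial
    · trivial
    · exact ((Finset.mem_filter.1 hu).2).elim
    · trivial
    · trivial
    · trivial
    · have h1 : j' = j := (Finset.mem_filter.1 hu).2
      have h2 : j'' = j := (Finset.mem_filter.1 hv).2
      exact absurd (by rw [h1, h2]) hne
  · rintro (i | b' | j') hu hpos
    · exact Nat.le_sub_one_of_lt (hT i hpos)
    · exact ((Finset.mem_filter.1 hu).2).elim
    · have h1 : j' = j := (Finset.mem_filter.1 hu).2
      subst h1
      exact Nat.le_sub_one_of_lt hy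
  · rw [hS]
    omega

/-- One less at the members of a finite set. -/
def dec {α : Type} [DecidableEq α] (u : α → ℕ) (S : Finset α) : α → ℕ :=
  fun a => u a - if a ∈ S then 1 else 0

theorem dec_of_mem {α : Type} [DecidableEq α] {u : α → ℕ} {S : Finset α} {a : α} (h : a ∈ S) :
    dec u S a = u a - 1 := by simp [dec, h]

theorem dec_of_not_mem {α : Type} [DecidableEq α] {u : α → ℕ} {S : Finset α} {a : α}
    (h : a ∉ S) : dec u S a = u a := by simp [dec, h]

theorem dec_le {α : Type} [DecidableEq α] (u : α → ℕ) (S : Finset α) (a : α) :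
    dec u S a ≤ u a := Nat.sub_le _ _

theorem le_dec {α : Type} [DecidableEq α] (u : α → ℕ) (S : Finset α) (a : α) :
    u a ≤ dec u S a + 1 := by
  unfold dec
  split_ifs <;> omega

/-- Lister presents the vertices `X` of the first side and the leaves `S`: Painter either colours
the former or the latter. -/
theorem LW.step (X : Finset Bool) (S : Finset (Fin m))
    (hX : ∀ b ∈ X, 0 < nX b) (hS : ∀ j ∈ S, 0 < nY j)
    (left : LW tT nT (dec tX X) (dec nX X) (dec tY S) nY)
    (down : LW tT nT (dec tX X) nX (dec tY S) (dec nY S)) : LW tT nT tX nX tY nY := by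
  intro hp
  let M : Set (Vx q m) := fun v => match v with
    | .T _ => False
    | .X b => b ∈ X
    | .Y j => j ∈ S
  obtain ⟨I, hI, hind, hw⟩ := hp.reply M (by
    rintro (i | b | j) hv
    · exact hv.elim
    · exact hX b hv
    · exact hS j hv)
  have ht : ∀ v, (asm tT tX tY - one M) v = asm tT (dec tX X) (dec tY S) v := by
    rintro (i | b | j)
    · rw [Pi.sub_apply, one_of_not_mem (show Vx.T i ∉ M from fun h => h)]
      rfl
    · by_cases hb : b ∈ X
      · rw [Pi.sub_apply, one_le_of_mem (show Vx.X b ∈ M from hb)]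
        exact (dec_of_mem hb).symm
      · rw [Pi.sub_apply, one_of_not_mem (show Vx.X b ∉ M from hb)]
        exact (dec_of_not_mem hb).symm
    · by_cases hj : j ∈ S
      · rw [Pi.sub_apply, one_le_of_mem (show Vx.Y j ∈ M from hj)]
        exact (dec_of_mem hj).symm
      · rw [Pi.sub_apply, one_of_not_mem (show Vx.Y j ∉ M from hj)]
        exact (dec_of_not_mem hj).symm
  have hTI : ∀ i, Vx.T i ∉ I := fun i hi => hI hi
  by_cases hc : ∃ j, Vx.Y j ∈ I
  · obtain ⟨j₀, hj₀⟩ := hc
    have hXI : ∀ b, Vx.X b ∉ I := fun b hb => hind hb hj₀ (fun h => by cases h) trivial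
    refine down (PW.mono hw (fun v => (ht v).le) ?_)
    rintro (i | b | j)
    · rw [Pi.sub_apply, one_of_not_mem (hTI i)]
      exact le_rfl
    · rw [Pi.sub_apply, one_of_not_mem (hXI b)]
      exact le_rfl
    · by_cases hj : Vx.Y j ∈ I
      · rw [Pi.sub_apply, one_le_of_mem hj]
        exact (dec_of_mem (show j ∈ S from hI hj)).le
      · rw [Pi.sub_apply, one_of_not_mem hj]
        exact dec_le nY S j
  · push Not at hc
    refine left (PW.mono hw (fun v => (ht v).le) ?_)
    rintro (i | b | j)
    · rw [Pi.sub_apply, one_of_not_mem (hTI i)]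
      exact le_rfl
    · by_cases hb : Vx.X b ∈ I
      · rw [Pi.sub_apply, one_le_of_mem hb]
        exact (dec_of_mem (show b ∈ X from hI hb)).le
      · rw [Pi.sub_apply, one_of_not_mem hb]
        exact dec_le nX X b
    · rw [Pi.sub_apply, one_of_not_mem (hc j)]
      exact le_rfl

/-- Lister presents all unfinished clique vertices, the vertices `X` of the first side and the
leaves `S`: Painter colours one clique vertex, or the former, or the latter. -/
theorem LW.stepT (X : Finset Bool) (S : Finset (Fin m))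
    (hX : ∀ b ∈ X, 0 < nX b) (hS : ∀ j ∈ S, 0 < nY j)
    (pass : ∀ i₀, 0 < nT i₀ → LW (dec tT (Finset.univ.filter fun i => 0 < nT i)) (dec nT {i₀})
      (dec tX X) nX (dec tY S) nY)
    (left : LW (dec tT (Finset.univ.filter fun i => 0 < nT i)) nT (dec tX X) (dec nX X)
      (dec tY S) nY)
    (down : LW (dec tT (Finset.univ.filter fun i => 0 < nT i)) nT (dec tX X) nX
      (dec tY S) (dec nY S)) : LW tT nT tX nX tY nY := by
  intro hp
  let M : Set (Vx q m) := fun v => match v with
    | .T i => 0 < nT i
    | .X b => b ∈ X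
    | .Y j => j ∈ S
  obtain ⟨I, hI, hind, hw⟩ := hp.reply M (by
    rintro (i | b | j) hv
    · exact hv
    · exact hX b hv
    · exact hS j hv)
  have ht : ∀ v, (asm tT tX tY - one M) v =
      asm (dec tT (Finset.univ.filter fun i => 0 < nT i)) (dec tX X) (dec tY S) v := by
    rintro (i | b | j)
    · by_cases hi : 0 < nT i
      · rw [Pi.sub_apply, one_le_of_mem (show Vx.T i ∈ M from hi)]
        exact (dec_of_mem (u := tT) (a := i)
          (Finset.mem_filter.2 ⟨Finset.mem_univ _, hi⟩)).symm
      · rw [Pi.sub_apply, one_of_not_mem (show Vx.T i ∉ M from hi)]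
        exact (dec_of_not_mem (u := tT) (a := i)
          (fun h => hi (Finset.mem_filter.1 h).2)).symm
    · by_cases hb : b ∈ X
      · rw [Pi.sub_apply, one_le_of_mem (show Vx.X b ∈ M from hb)]
        exact (dec_of_mem hb).symm
      · rw [Pi.sub_apply, one_of_not_mem (show Vx.X b ∉ M from hb)]
        exact (dec_of_not_mem hb).symm
    · by_cases hj : j ∈ S
      · rw [Pi.sub_apply, one_le_of_mem (show Vx.Y j ∈ M from hj)]
        exact (dec_of_mem hj).symm
      · rw [Pi.sub_apply, one_of_not_mem (show Vx.Y j ∉ M from hj)]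
        exact (dec_of_not_mem hj).symm
  by_cases hcT : ∃ i, Vx.T i ∈ I
  · obtain ⟨i₀, hi₀⟩ := hcT
    have hTI : ∀ i, Vx.T i ∈ I → i = i₀ := by
      intro i hi
      by_contra hne
      exact hind hi hi₀ (fun e => hne (by cases e; rfl)) hne
    have hXI : ∀ b, Vx.X b ∉ I := fun b hb => hind hb hi₀ (fun h => by cases h) trivial
    have hYI : ∀ j, Vx.Y j ∉ I := fun j hj => hind hj hi₀ (fun h => by cases h) trivial
    refine pass i₀ (hI hi₀) (PW.mono hw (fun v => (ht v).le) ?_)
    rintro (i | b | j)
    · by_cases hi : Vx.T i ∈ I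
      · rw [Pi.sub_apply, one_le_of_mem hi]
        have := hTI i hi
        subst this
        exact (dec_of_mem (Finset.mem_singleton_self _)).le
      · rw [Pi.sub_apply, one_of_not_mem hi]
        exact dec_le nT {i₀} i
    · rw [Pi.sub_apply, one_of_not_mem (hXI b)]
      exact le_rfl
    · rw [Pi.sub_apply, one_of_not_mem (hYI j)]
      exact le_rfl
  push Not at hcT
  by_cases hc : ∃ j, Vx.Y j ∈ I
  · obtain ⟨j₀, hj₀⟩ := hc
    have hXI : ∀ b, Vx.X b ∉ I := fun b hb => hind hb hj₀ (fun h => by cases h) trivial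
    refine down (PW.mono hw (fun v => (ht v).le) ?_)
    rintro (i | b | j)
    · rw [Pi.sub_apply, one_of_not_mem (hcT i)]
      exact le_rfl
    · rw [Pi.sub_apply, one_of_not_mem (hXI b)]
      exact le_rfl
    · by_cases hj : Vx.Y j ∈ I
      · rw [Pi.sub_apply, one_le_of_mem hj]
        exact (dec_of_mem (show j ∈ S from hI hj)).le
      · rw [Pi.sub_apply, one_of_not_mem hj]
        exact dec_le nY S j
  · push Not at hc
    refine left (PW.mono hw (fun v => (ht v).le) ?_)
    rintro (i | b | j)
    · rw [Pi.sub_apply, one_of_not_mem (hcT i)]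
      exact le_rfl
    · by_cases hb : Vx.X b ∈ I
      · rw [Pi.sub_apply, one_le_of_mem hb]
        exact (dec_of_mem (show b ∈ X from hI hb)).le
      · rw [Pi.sub_apply, one_of_not_mem hb]
        exact dec_le nX X b
    · rw [Pi.sub_apply, one_of_not_mem (hc j)]
      exact le_rfl

end Pool.Agent.Helper95.SP
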