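import Pool.Agent.Helper95.SP.Base

set_option autoImplicit false

/-!
The clique calls of Lister: he presents all the unfinished clique vertices, both vertices of the
first side and all but one of a set of leaves.
-/

namespace Pool.Agent.Helper95.SP

open Set Pool.Agent.Helper37.Paint

variable {q m : ℕ}

/-- The sum after one less at one member. -/
theorem beta2_sum_dec {α : Type} [DecidableEq α] (u : α → ℕ) (s : Finset α) (k : α)
    (hk : k ∈ s) (h : 0 < u k) : ∑ i ∈ s, dec u {k} i + 1 = ∑ i ∈ s, u i := by
  have h1 : ∑ i ∈ s, u i = ∑ i ∈ s, (dec u {k} i + if i = k then 1 else 0) := by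
    refine Finset.sum_congr rfl fun i _ => ?_
    by_cases hi : i = k
    · subst hi
      rw [dec_of_mem (Finset.mem_singleton_self _), if_pos rfl]
      omega
    · rw [dec_of_not_mem (by simpa using hi), if_neg hi]
      omega
  rw [h1, Finset.sum_add_distrib, Finset.sum_ite_eq' s k, if_pos hk]

theorem beta2_aux (j0 : Fin m) (F : Finset (Fin m)) (hj0 : j0 ∉ F) :
    ∀ (M Δ : ℕ) (w a : Fin m → ℕ)
    (tT nT : Fin q → ℕ) (tX nX : Bool → ℕ) (tY nY : Fin m → ℕ)
    (_ : tX false ≤ M)
    (_ : tY j0 < nY j0 + ∑ i, nT i) (_ : ∑ i, nT i ≤ ∑ j ∈ F, w j)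
    (_ : ∀ j ∈ F, tY j + w j + Δ < nY j + ∑ i, nT i + nX false)
    (_ : ∀ b, Δ < nX b)
    (_ : ∀ j ∈ F, tX false ≤ nX false + ∑ i, nT i + nY j + a j)
    (_ : ∀ j, (j = j0 ∨ j ∈ F) → ∑ i ∈ F, a i < nY j)
    (_ : ∀ i, 0 < nT i → ∀ j, (j = j0 ∨ j ∈ F) → tT i + 1 ≤ ∑ i, nT i + Δ + nY j),
    LW tT nT tX nX tY nY := by
  intro M
  induction M with
  | zero =>
    intro Δ w a tT nT tX nX tY nY hM h0 hN hcap hΔ ha hν hT
    exact LW.of_X false (by have := hΔ false; omega)
  | succ M ih =>
    intro Δ w a tT nT tX nX tY nY hM h0 hN hcap hΔ ha hν hT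
    by_cases hdX : ∃ b, tX b < nX b
    · obtain ⟨b, hb⟩ := hdX
      exact LW.of_X b hb
    push Not at hdX
    by_cases hdY : ∃ j, tY j < nY j
    · obtain ⟨j, hj⟩ := hdY
      exact LW.of_Y j hj
    push Not at hdY
    by_cases hdT : ∃ i, tT i < nT i
    · obtain ⟨i, hi⟩ := hdT
      exact LW.of_T i hi
    push Not at hdT
    have hXf := hdX false
    have hΔf := hΔ false
    have hN1 : 1 ≤ ∑ i, nT i := by
      have := hdY j0
      omega
    obtain ⟨k, hkF, hwk⟩ : ∃ k ∈ F, 0 < w k := by
      by_contra hcon
      push Not at hcon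
      have : ∑ j ∈ F, w j = 0 := Finset.sum_eq_zero fun j hj => by have := hcon j hj; omega
      omega
    have hkj0 : k ≠ j0 := fun e => hj0 (e ▸ hkF)
    have hnYpos : ∀ j, (j = j0 ∨ j ∈ F) → 0 < nY j := fun j hj =>
      lt_of_le_of_lt (Nat.zero_le _) (hν j hj)
    have hS : ∀ j, (j = j0 ∨ j ∈ F) → j ≠ k → j ∈ (insert j0 F).erase k := by
      intro j hj hjk
      rw [Finset.mem_erase, Finset.mem_insert]
      exact ⟨hjk, hj⟩
    have hSk : k ∉ (insert j0 F).erase k := Finset.notMem_erase _ _
    have hS' : ∀ j ∈ (insert j0 F).erase k, (j = j0 ∨ j ∈ F) ∧ j ≠ k := by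
      intro j hj
      rw [Finset.mem_erase, Finset.mem_insert] at hj
      exact ⟨hj.2, hj.1⟩
    have htXf : dec tX Finset.univ false = tX false - 1 := dec_of_mem (Finset.mem_univ _)
    have htY0 : dec tY ((insert j0 F).erase k) j0 = tY j0 - 1 :=
      dec_of_mem (hS j0 (Or.inl rfl) hkj0.symm)
    have htYk : dec tY ((insert j0 F).erase k) k = tY k := dec_of_not_mem hSk
    have hnY0 : dec nY ((insert j0 F).erase k) j0 = nY j0 - 1 :=
      dec_of_mem (hS j0 (Or.inl rfl) hkj0.symm)
    have hnYk : dec nY ((insert j0 F).erase k) k = nY k := dec_of_not_mem hSk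
    have htY : ∀ j, (j = j0 ∨ j ∈ F) → j ≠ k →
        dec tY ((insert j0 F).erase k) j = tY j - 1 := fun j hj hjk => dec_of_mem (hS j hj hjk)
    have hnY : ∀ j, (j = j0 ∨ j ∈ F) → j ≠ k →
        dec nY ((insert j0 F).erase k) j = nY j - 1 := fun j hj hjk => dec_of_mem (hS j hj hjk)
    have htT : ∀ i, 0 < nT i →
        dec tT (Finset.univ.filter fun i => 0 < nT i) i = tT i - 1 := fun i hi =>
      dec_of_mem (Finset.mem_filter.2 ⟨Finset.mem_univ _, hi⟩)
    have hY0 := hdY j0
    have hnY0' := hnYpos j0 (Or.inl rfl)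
    refine LW.stepT Finset.univ ((insert j0 F).erase k)
      (fun b _ => lt_of_le_of_lt (Nat.zero_le _) (hΔ b))
      (fun j hj => hnYpos j (hS' j hj).1) ?_ ?_ ?_
    · -- Painter colours a clique vertex
      intro i₀ hi₀
      have hsum := beta2_sum_dec nT Finset.univ i₀ (Finset.mem_univ _) hi₀
      have hsumw := beta2_sum_dec w F k hkF hwk
      have hle : ∀ i, dec nT {i₀} i ≤ nT i := dec_le nT {i₀}
      refine ih Δ (dec w {k}) a _ _ _ _ _ _ ?_ ?_ ?_ ?_ ?_ ?_ ?_ ?_
      · rw [htXf]; omega
      · rw [htY0]; omega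
      · omega
      · intro j hj
        have h1 := hcap j hj
        have h2 := hdY j
        have h3 := hnYpos j (Or.inr hj)
        by_cases hjk : j = k
        · subst hjk
          rw [htYk, dec_of_mem (Finset.mem_singleton_self _)]
          omega
        · rw [htY j (Or.inr hj) hjk, dec_of_not_mem (by simpa using hjk)]
          omega
      · exact hΔ
      · intro j hj
        have h1 := ha j hj
        rw [htXf]
        omega
      · exact hν
      · intro i hi j hj
        have hi' : 0 < nT i := lt_of_lt_of_le hi (hle i)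
        have h1 := hT i hi' j hj
        have h2 := hdT i
        rw [htT i hi']
        omega
    · -- Painter colours the first side
      have hnX : ∀ b, dec nX Finset.univ b = nX b - 1 := fun b => dec_of_mem (Finset.mem_univ _)
      rcases Nat.eq_zero_or_pos Δ with hΔ0 | hΔ0
      · refine LW.f1 j0 ?_ ?_
        · rw [htY0]; omega
        · intro i hi
          have h1 := hT i hi j0 (Or.inl rfl)
          rw [htT i hi]
          omega
      · refine ih (Δ - 1) w a _ _ _ _ _ _ ?_ ?_ hN ?_ ?_ ?_ hν ?_
        · rw [htXf]; omega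
        · rw [htY0]; omega
        · intro j hj
          have h1 := hcap j hj
          have h2 := dec_le tY ((insert j0 F).erase k) j
          rw [hnX]
          omega
        · intro b
          have := hΔ b
          rw [hnX]
          omega
        · intro j hj
          have h1 := ha j hj
          rw [htXf, hnX]
          omega
        · intro i hi j hj
          have h1 := hT i hi j hj
          have h2 := hdT i
          rw [htT i hi]
          omega
    · -- Painter colours the leaves
      rcases Nat.eq_zero_or_pos (a k) with hak | hak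
      · have h1 := ha k hkF
        have h2 := hcap k hkF
        refine LW.nw false k ?_ ?_ ?_
        · rw [htXf, hnYk]; omega
        · rw [htYk, hnYk]; omega
        · intro i hi
          have h3 := hT i hi k (Or.inr hkF)
          rw [htT i hi, hnYk]
          omega
      · have hsuma := beta2_sum_dec a F k hkF hak
        refine ih Δ w (dec a {k}) _ _ _ _ _ _ ?_ ?_ hN ?_ hΔ ?_ ?_ ?_
        · rw [htXf]; omega
        · rw [htY0, hnY0]; omega
        · intro j hj
          have h1 := hcap j hj
          have h2 := hdY j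
          have h3 := hnYpos j (Or.inr hj)
          by_cases hjk : j = k
          · subst hjk
            rw [htYk, hnYk]
            omega
          · rw [htY j (Or.inr hj) hjk, hnY j (Or.inr hj) hjk]
            omega
        · intro j hj
          have h1 := ha j hj
          have h3 := hnYpos j (Or.inr hj)
          rw [htXf]
          by_cases hjk : j = k
          · subst hjk
            rw [hnYk, dec_of_mem (Finset.mem_singleton_self _)]
            omega
          · rw [hnY j (Or.inr hj) hjk, dec_of_not_mem (by simpa using hjk)]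
            omega
        · intro j hj
          have h1 := hν j hj
          by_cases hjk : j = k
          · subst hjk
            rw [hnYk]
            omega
          · rw [hnY j hj hjk]
            omega
        · intro i hi j hj
          have h1 := hT i hi j hj
          have h2 := hdT i
          have h3 := hnYpos j hj
          rw [htT i hi]
          by_cases hjk : j = k
          · subst hjk
            rw [hnYk]
            omega
          · rw [hnY j hj hjk]
            omega

/-- Module Beta2. -/
theorem beta2 (j0 : Fin m) (F : Finset (Fin m)) (hj0 : j0 ∉ F) (Δ : ℕ) (w a : Fin m → ℕ)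
    {tT nT : Fin q → ℕ} {tX nX : Bool → ℕ} {tY nY : Fin m → ℕ}
    (h0 : tY j0 < nY j0 + ∑ i, nT i) (hN : ∑ i, nT i ≤ ∑ j ∈ F, w j)
    (hcap : ∀ j ∈ F, tY j + w j + Δ < nY j + ∑ i, nT i + nX false)
    (hΔ : ∀ b, Δ < nX b)
    (ha : ∀ j ∈ F, tX false ≤ nX false + ∑ i, nT i + nY j + a j)
    (hν : ∀ j, (j = j0 ∨ j ∈ F) → ∑ i ∈ F, a i < nY j)
    (hT : ∀ i, 0 < nT i → ∀ j, (j = j0 ∨ j ∈ F) → tT i + 1 ≤ ∑ i, nT i + Δ + nY j) :
    LW tT nT tX nX tY nY :=
  beta2_aux j0 F hj0 (tX false) Δ w a tT nT tX nX tY nY le_rfl h0 hN hcap hΔ ha hν hT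

end Pool.Agent.Helper95.SP
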