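import Pool.Agent.Helper95.SP.Base
import Pool.Agent.Helper95.SP.Beta2

set_option autoImplicit false

namespace Pool.Agent.Helper95.SP

open Set Pool.Agent.Helper37.Paint

variable {q m : ℕ}

theorem b1_ff (u : Bool → ℕ) : dec u {false} false = u false - 1 := by simp [dec]
theorem b1_ft (u : Bool → ℕ) : dec u {false} true = u true := by simp [dec]
theorem b1_tf (u : Bool → ℕ) : dec u {true} false = u false := by simp [dec]
theorem b1_tt (u : Bool → ℕ) : dec u {true} true = u true - 1 := by simp [dec]

/-- Module Beta1 (uses beta2). -/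
theorem beta1 {tT nT : Fin q → ℕ} (κ Δ β νm A w c : ℕ) (j0 : Fin m) (F : Finset (Fin m))
    (hj0 : j0 ∉ F) (hκ : Δ < κ)
    (hT1 : ∀ i, tT i < κ + νm + ∑ i, nT i)
    (hT2 : ∀ i, tT i + 1 ≤ ∑ i, nT i + Δ + νm)
    (hN : ∑ i, nT i ≤ F.card * w)
    (hw : κ + c + w + Δ < β) (hβ : κ + (κ + c) < β) (hA : F.card * A < νm) :
    ∀ (E : ℕ) (C : Finset (Fin m)), 2 ^ (E + 1) ≤ C.card → Disjoint C F → j0 ∉ C →
    ∀ (tX nX : Bool → ℕ) (tY nY : Fin m → ℕ) (a : Fin m → Bool → ℕ),
    κ ≤ nX false → nX false ≤ nX true → nX true + E ≤ nX false + c →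
    (∀ j ∈ C, ∀ b, tY j < nY j + ∑ i, nT i + nX b) →
    (∀ j ∈ C, ∀ b, tX b ≤ nX b + ∑ i, nT i + nY j + a j b) →
    (∀ j ∈ C, a j false + a j true ≤ E) →
    (∀ j ∈ C, νm + E ≤ nY j) →
    (∀ j, (j = j0 ∨ j ∈ F) → tY j + β ≤ nY j + ∑ i, nT i + nX false + nX true) →
    (∀ j, (j = j0 ∨ j ∈ F) → νm + E ≤ nY j) →
    (∀ j ∈ F, tX false + E ≤ nX false + ∑ i, nT i + nY j + A) →
    LW tT nT tX nX tY nY := by
  classical
  obtain ⟨N, hNN⟩ : ∃ N, N = ∑ i, nT i := ⟨_, rfl⟩
  rw [← hNN] at hT1 hT2 hN
  rw [← hNN]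
  intro E
  induction E using Nat.strong_induction_on with
  | _ E ihE =>
  intro C hC hCF hj0C tX nX tY nY a
  induction hs : tX false + tX true using Nat.strong_induction_on generalizing tX nX tY nY a with
  | _ s ihs =>
  intro k1 k2 k3 H1 H2 H3 H4 H5 H6 H7
  have hνm : 0 < νm := by omega
  -- dead positions
  by_cases dX : ∃ b, tX b < nX b
  · obtain ⟨b, hb⟩ := dX
    exact LW.of_X b hb
  by_cases dY : ∃ j, tY j < nY j
  · obtain ⟨j, hj⟩ := dY
    exact LW.of_Y j hj
  push Not at dX dY
  have dXf := dX false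
  have dXt := dX true
  by_cases hk : nX false = κ
  · -- the second phase
    refine beta2 j0 F hj0 Δ (fun _ => w) (fun _ => A) ?_ ?_ ?_ ?_ ?_ ?_ ?_
    · rw [← hNN]
      have := H5 j0 (Or.inl rfl)
      omega
    · rw [← hNN, Finset.sum_const, smul_eq_mul]
      exact hN
    · intro j hj
      rw [← hNN]
      have := H5 j (Or.inr hj)
      omega
    · intro b
      cases b <;> omega
    · intro j hj
      rw [← hNN]
      have := H7 j hj
      omega
    · intro j hj
      rw [Finset.sum_const, smul_eq_mul]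
      have := H6 j hj
      omega
    · intro i _ j hj
      rw [← hNN]
      have h1 := H6 j hj
      have h2 := hT2 i
      omega
  -- the first phase
  have hkf : κ < nX false := by omega
  have hkt : κ < nX true := by omega
  have hpow : 2 ^ (E + 1) = 2 ^ E + 2 ^ E := by rw [pow_succ]; omega
  have hpos : 0 < 2 ^ E := by positivity
  obtain ⟨Z0, hZ0, hZ0c⟩ := Finset.exists_subset_card_eq (show 2 ^ E ≤ C.card by omega)
  obtain ⟨Z1, hZ1⟩ : ∃ Z1, Z1 = C \ Z0 := ⟨_, rfl⟩
  have hZ1c : 2 ^ E ≤ Z1.card := by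
    rw [hZ1, Finset.card_sdiff_of_subset hZ0]
    omega
  have hZ1C : Z1 ⊆ C := by rw [hZ1]; exact Finset.sdiff_subset
  have hZ01 : ∀ j ∈ Z1, j ∉ Z0 := by
    intro j hj
    rw [hZ1] at hj
    exact (Finset.mem_sdiff.1 hj).2
  have hZ0F : Disjoint Z0 F := Finset.disjoint_of_subset_left hZ0 hCF
  have hZ1F : Disjoint Z1 F := Finset.disjoint_of_subset_left hZ1C hCF
  have hj0Z0 : j0 ∉ Z0 := fun h => hj0C (hZ0 h)
  have hj0Z1 : j0 ∉ Z1 := fun h => hj0C (hZ1C h)
  -- the sets of leaves
  obtain ⟨S0, hS0⟩ : ∃ S0, S0 = (C \ Z0) ∪ insert j0 F := ⟨_, rfl⟩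
  obtain ⟨S1, hS1⟩ : ∃ S1, S1 = (C \ Z1) ∪ insert j0 F := ⟨_, rfl⟩
  have e0 : ∀ j, j ∈ S0 → (j ∈ C ∨ (j = j0 ∨ j ∈ F)) := by
    intro j hj
    rw [hS0, Finset.mem_union, Finset.mem_insert] at hj
    rcases hj with hj | hj
    · exact Or.inl (Finset.mem_sdiff.1 hj).1
    · exact Or.inr hj
  have e1 : ∀ j, j ∈ S1 → (j ∈ C ∨ (j = j0 ∨ j ∈ F)) := by
    intro j hj
    rw [hS1, Finset.mem_union, Finset.mem_insert] at hj
    rcases hj with hj | hj
    · exact Or.inl (Finset.mem_sdiff.1 hj).1
    · exact Or.inr hj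
  have f0 : ∀ j, (j = j0 ∨ j ∈ F) → j ∈ S0 := by
    intro j hj
    rw [hS0, Finset.mem_union, Finset.mem_insert]
    exact Or.inr hj
  have f1 : ∀ j, (j = j0 ∨ j ∈ F) → j ∈ S1 := by
    intro j hj
    rw [hS1, Finset.mem_union, Finset.mem_insert]
    exact Or.inr hj
  have g0 : ∀ j ∈ Z0, j ∉ S0 := by
    intro j hj h
    rw [hS0, Finset.mem_union, Finset.mem_insert] at h
    rcases h with h | h | h
    · exact (Finset.mem_sdiff.1 h).2 hj
    · exact hj0Z0 (h ▸ hj)
    · exact Finset.disjoint_left.1 hZ0F hj h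
  have g1 : ∀ j ∈ Z1, j ∉ S1 := by
    intro j hj h
    rw [hS1, Finset.mem_union, Finset.mem_insert] at h
    rcases h with h | h | h
    · exact (Finset.mem_sdiff.1 h).2 hj
    · exact hj0Z1 (h ▸ hj)
    · exact Finset.disjoint_left.1 hZ1F hj h
  have g01 : ∀ j ∈ C, j ∉ Z0 → j ∈ S0 := by
    intro j hj h
    rw [hS0, Finset.mem_union]
    exact Or.inl (Finset.mem_sdiff.2 ⟨hj, h⟩)
  have g11 : ∀ j ∈ C, j ∉ Z1 → j ∈ S1 := by
    intro j hj h
    rw [hS1, Finset.mem_union]
    exact Or.inl (Finset.mem_sdiff.2 ⟨hj, h⟩)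
  have hY0 : ∀ j, (j ∈ C ∨ (j = j0 ∨ j ∈ F)) → νm + E ≤ nY j := by
    intro j hj
    rcases hj with hj | hj
    · exact H4 j hj
    · exact H6 j hj
  refine LW.step {false} S0 ?_ ?_ ?_ ?_
  · intro b hb
    rw [Finset.mem_singleton.1 hb]
    omega
  · intro j hj
    have := hY0 j (e0 j hj)
    omega
  · -- Left
    -- dead positions
    by_cases dY1 : ∃ j, dec tY S0 j < nY j
    · obtain ⟨j, hj⟩ := dY1
      exact LW.of_Y j hj
    push Not at dY1
    refine LW.step {true} S1 ?_ ?_ ?_ ?_
    · intro b hb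
      rw [Finset.mem_singleton.1 hb, b1_ft]
      omega
    · intro j hj
      have := hY0 j (e1 j hj)
      omega
    · -- Left again
      refine ihs ((dec (dec tX {false}) {true}) false + (dec (dec tX {false}) {true}) true) ?_
        _ _ _ _ a rfl ?_ ?_ ?_ ?_ ?_ ?_ ?_ ?_ ?_ ?_
      · rw [b1_tf, b1_ff, b1_tt, b1_ft]
        omega
      · rw [b1_tf, b1_ff]
        omega
      · rw [b1_tf, b1_ff, b1_tt, b1_ft]
        omega
      · rw [b1_tf, b1_ff, b1_tt, b1_ft]
        omega
      · intro j hj b
        have h1 := H1 j hj false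
        have h2 := H1 j hj true
        have h3 := hY0 j (Or.inl hj)
        have h4 := dY j
        have h5 : dec (dec tY S0) S1 j ≤ tY j - 1 := by
          by_cases hz : j ∈ Z0
          · have hz1 : j ∈ S1 := g11 j hj (fun h => hZ01 j h hz)
            rw [dec_of_mem hz1, dec_of_not_mem (g0 j hz)]
          · rw [show dec (dec tY S0) S1 j ≤ tY j - 1 ↔ dec (dec tY S0) S1 j ≤ dec tY S0 j by
              rw [dec_of_mem (u := tY) (g01 j hj hz)]]
            exact dec_le _ _ _
        cases b
        · rw [b1_tf, b1_ff]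
          omega
        · rw [b1_tt, b1_ft]
          omega
      · intro j hj b
        have h1 := H2 j hj false
        have h2 := H2 j hj true
        cases b
        · rw [b1_tf, b1_ff, b1_tf, b1_ff]
          omega
        · rw [b1_tt, b1_ft, b1_tt, b1_ft]
          omega
      · exact H3
      · exact H4
      · intro j hj
        have h1 := H5 j hj
        have h2 := H6 j hj
        have h3 := dY1 j
        rw [dec_of_mem (f0 j hj)] at h3
        rw [b1_tf, b1_ff, b1_tt, b1_ft, dec_of_mem (f1 j hj), dec_of_mem (f0 j hj)]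
        omega
      · exact H6
      · intro j hj
        have h1 := H7 j hj
        rw [b1_tf, b1_ff, b1_tf, b1_ff]
        omega
    · -- Down
      by_cases hz : ∃ j ∈ Z1, a j true = 0
      · obtain ⟨j, hj, haj⟩ := hz
        have h1 := H1 j (hZ1C hj) true
        have h2 := H2 j (hZ1C hj) true
        have h3 := H4 j (hZ1C hj)
        refine LW.nw true j ?_ ?_ ?_
        · rw [b1_tt, b1_ft, b1_ft, dec_of_not_mem (g1 j hj), ← hNN]
          omega
        · rw [dec_of_not_mem (g1 j hj), dec_of_not_mem (g1 j hj), b1_ft, ← hNN,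
            dec_of_mem (g01 j (hZ1C hj) (hZ01 j hj))]
          omega
        · intro i _
          have h4 := hT1 i
          rw [dec_of_not_mem (g1 j hj), b1_ft, ← hNN]
          omega
      · push Not at hz
        have hE : ∃ E', E = E' + 1 := by
          have hne : Z1.Nonempty := by
            rw [← Finset.card_pos]
            omega
          obtain ⟨j, hj⟩ := hne
          have h1 := hz j hj
          have h2 := H3 j (hZ1C hj)
          exact ⟨E - 1, by omega⟩
        obtain ⟨E', rfl⟩ := hE
        refine ihE E' (by omega) Z1 hZ1c hZ1F hj0Z1 _ _ _ _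
          (fun j b => if b = true then a j true - 1 else a j false) ?_ ?_ ?_ ?_ ?_ ?_ ?_ ?_ ?_ ?_
        · rw [b1_ff]
          omega
        · rw [b1_ff, b1_ft]
          omega
        · rw [b1_ff, b1_ft]
          omega
        · intro j hj b
          have h1 := H1 j (hZ1C hj) false
          have h2 := H1 j (hZ1C hj) true
          have h3 := hY0 j (Or.inl (hZ1C hj))
          have h4 := dY j
          rw [dec_of_not_mem (g1 j hj), dec_of_not_mem (g1 j hj),
            dec_of_mem (g01 j (hZ1C hj) (hZ01 j hj))]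
          cases b
          · rw [b1_ff]
            omega
          · rw [b1_ft]
            omega
        · intro j hj b
          have h1 := H2 j (hZ1C hj) false
          have h2 := H2 j (hZ1C hj) true
          have h3 := hz j hj
          rw [dec_of_not_mem (g1 j hj)]
          cases b
          · rw [b1_tf, b1_ff, b1_ff, if_neg (by decide)]
            omega
          · rw [b1_tt, b1_ft, b1_ft, if_pos rfl]
            omega
        · intro j hj
          have h1 := H3 j (hZ1C hj)
          have h3 := hz j hj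
          rw [if_neg (by decide), if_pos rfl]
          omega
        · intro j hj
          have h1 := H4 j (hZ1C hj)
          rw [dec_of_not_mem (g1 j hj)]
          omega
        · intro j hj
          have h1 := H5 j hj
          have h2 := H6 j hj
          have h3 := dY1 j
          rw [dec_of_mem (f0 j hj)] at h3
          rw [b1_ff, b1_ft, dec_of_mem (f1 j hj), dec_of_mem (f0 j hj), dec_of_mem (f1 j hj)]
          omega
        · intro j hj
          have h1 := H6 j hj
          rw [dec_of_mem (f1 j hj)]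
          omega
        · intro j hj
          have h1 := H7 j hj
          have h2 := H6 j (Or.inr hj)
          rw [b1_tf, b1_ff, b1_ff, dec_of_mem (f1 j (Or.inr hj))]
          omega
  · -- Down
    by_cases hz : ∃ j ∈ Z0, a j false = 0
    · obtain ⟨j, hj, haj⟩ := hz
      have h1 := H1 j (hZ0 hj) false
      have h2 := H2 j (hZ0 hj) false
      have h3 := H4 j (hZ0 hj)
      refine LW.nw false j ?_ ?_ ?_
      · rw [b1_ff, dec_of_not_mem (g0 j hj), ← hNN]
        omega
      · rw [dec_of_not_mem (g0 j hj), dec_of_not_mem (g0 j hj), ← hNN]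
        omega
      · intro i _
        have h4 := hT1 i
        rw [dec_of_not_mem (g0 j hj), ← hNN]
        omega
    · push Not at hz
      have hE : ∃ E', E = E' + 1 := by
        have hne : Z0.Nonempty := by
          rw [← Finset.card_pos]
          omega
        obtain ⟨j, hj⟩ := hne
        have h1 := hz j hj
        have h2 := H3 j (hZ0 hj)
        exact ⟨E - 1, by omega⟩
      obtain ⟨E', rfl⟩ := hE
      refine ihE E' (by omega) Z0 hZ0c.ge hZ0F hj0Z0 _ _ _ _
        (fun j b => if b = false then a j false - 1 else a j true) ?_ ?_ ?_ ?_ ?_ ?_ ?_ ?_ ?_ ?_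
      · omega
      · omega
      · omega
      · intro j hj b
        have h1 := H1 j (hZ0 hj) b
        rw [dec_of_not_mem (g0 j hj), dec_of_not_mem (g0 j hj)]
        omega
      · intro j hj b
        have h1 := H2 j (hZ0 hj) false
        have h2 := H2 j (hZ0 hj) true
        have h3 := hz j hj
        rw [dec_of_not_mem (g0 j hj)]
        cases b
        · rw [b1_ff, if_pos rfl]
          omega
        · rw [b1_ft, if_neg (by decide)]
          omega
      · intro j hj
        have h1 := H3 j (hZ0 hj)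
        have h3 := hz j hj
        rw [if_pos rfl, if_neg (by decide)]
        omega
      · intro j hj
        have h1 := H4 j (hZ0 hj)
        rw [dec_of_not_mem (g0 j hj)]
        omega
      · intro j hj
        have h1 := H5 j hj
        have h2 := H6 j hj
        have h3 := dY j
        rw [dec_of_mem (f0 j hj), dec_of_mem (f0 j hj)]
        omega
      · intro j hj
        have h1 := H6 j hj
        rw [dec_of_mem (f0 j hj)]
        omega
      · intro j hj
        have h1 := H7 j hj
        have h2 := H6 j (Or.inr hj)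
        rw [b1_ff, dec_of_mem (f0 j (Or.inr hj))]
        omega

end Pool.Agent.Helper95.SP
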