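import Pool.Agent.Helper95.SP.Alpha
import Pool.Agent.Helper95.SP.Beta1

set_option autoImplicit false

namespace Pool.Agent.Helper95.SP

open Set Pool.Agent.Helper37.Paint

variable {q m : ℕ}

/-- The end of the strategies of the second kind. -/
private theorem fs_alpha (B N : ℕ) {tT nT : Fin q → ℕ} (hN : ∑ i, nT i = N)
    (hB : 50 * (q + 1) ≤ B) (hNB : N = q * B) (hT : ∀ i, tT i ≤ N + B + 1)
    (C F : Finset (Fin m)) (hC : C.card = 256) (hF : F.card = q + 1) (hCF : Disjoint C F)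
    (tX nX : Bool → ℕ) (tY nY : Fin m → ℕ) (p : Bool → ℕ)
    (h1 : ∀ b, B - 4 ≤ nX b) (h2 : ∀ b, tX b < nX b + B + N)
    (h3 : ∀ b, B + 1 ≤ nX b + p b) (h4 : p false + p true ≤ 7)
    (h5 : ∀ j ∈ C, tY j = N + 2 * B + 1 ∧ nY j = B)
    (h6 : ∀ j ∈ F, tY j = N + 2 * B + 1 ∧ nY j = B) : LW tT nT tX nX tY nY := by
  refine alpha1 (B - 11) 13 12 (B - 14) (by norm_num) F ?_ ?_ ?_ 7 C ?_ hCF tX nX tY nY
    (fun _ b => p b) ?_ ?_ ?_ ?_ ?_ ?_
  · intro i
    have := hT i
    omega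
  · rw [hN, hF, hNB, Nat.add_mul, Nat.mul_sub]
    have : q * 14 ≤ q * B := Nat.mul_le_mul_left q (by omega)
    omega
  · rw [hF]; omega
  · rw [hC]; norm_num
  · intro b
    have := h1 b
    omega
  · intro j hj b
    have e1 := h2 b
    have e2 := (h5 j hj).2
    omega
  · intro j hj b
    have e1 := h3 b
    have e2 := h5 j hj
    omega
  · intro j hj
    exact h4
  · intro j hj
    have e2 := h6 j hj
    omega
  · intro j hj
    have e2 := h6 j hj
    omega

/-- The third kind. -/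
private theorem fs_third (B N : ℕ) {tT nT : Fin q → ℕ} (hN : ∑ i, nT i = N)
    (hB : 50 * (q + 1) ≤ B) (hNB : N = q * B) (hT : ∀ i, tT i ≤ N + B + 1)
    (C F : Finset (Fin m)) (hC : C.card = 256) (hF : F.card = q + 1) (hCF : Disjoint C F)
    (y : Fin m) (hyC : y ∉ C) (hyF : y ∉ F) (b0 : Bool) (D L' : ℕ) (hD : D ≤ 3) (hL : L' ≤ 1)
    (k : ℕ) : ∀ (l d : ℕ), l ≤ 3 → d ≤ 2 → (3 - l) + (2 - d) = k →
    ∀ (tX nX : Bool → ℕ) (tY nY : Fin m → ℕ),
    tX b0 + D + l + d + 1 = N + 2 * B → nX b0 + 2 + l = B →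
    tX (!b0) + 3 + L' = N + 2 * B → nX (!b0) + L' = B →
    tY y + l + d = N + 2 * B + 1 → nY y + d = B →
    (∀ j ∈ C, tY j = N + 2 * B + 1 ∧ nY j = B) →
    (∀ j ∈ F, tY j = N + 2 * B + 1 ∧ nY j = B) → LW tT nT tX nX tY nY := by
  induction k with
  | zero =>
    intro l d hl hd hk tX nX tY nY e1 e2 e3 e4 e5 e6 h5 h6
    refine LW.nw (!b0) y ?_ ?_ ?_
    · rw [hN]; omega
    · rw [hN]; omega
    · intro i _
      have := hT i
      rw [hN]; omega
  | succ k ih =>
    intro l d hl hd hk tX nX tY nY e1 e2 e3 e4 e5 e6 h5 h6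
    by_cases hl3 : l = 3
    · refine LW.nw (!b0) y ?_ ?_ ?_
      · rw [hN]; omega
      · rw [hN]; omega
      · intro i _
        have := hT i
        rw [hN]; omega
    by_cases hDd : 2 ≤ D + d
    · refine fs_alpha B N hN hB hNB hT C F hC hF hCF tX nX tY nY
        (fun b => if b = b0 then 5 else 2) ?_ ?_ ?_ ?_ h5 h6
      · intro b
        rcases Bool.eq_or_eq_not b b0 with rfl | rfl
        · omega
        · omega
      · intro b
        rcases Bool.eq_or_eq_not b b0 with rfl | rfl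
        · omega
        · omega
      · intro b
        rcases Bool.eq_or_eq_not b b0 with rfl | rfl
        · simp only [if_true]; omega
        · have : (!b0) ≠ b0 := by cases b0 <;> decide
          simp only [this, if_false]; omega
      · cases b0 <;> simp
    have hb : (!b0) ∉ ({b0} : Finset Bool) := by cases b0 <;> decide
    have hb0 : b0 ∈ ({b0} : Finset Bool) := Finset.mem_singleton_self _
    have hy : y ∈ ({y} : Finset (Fin m)) := Finset.mem_singleton_self _
    have hCy : ∀ j ∈ C, j ∉ ({y} : Finset (Fin m)) := fun j hj h => by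
      rw [Finset.mem_singleton] at h; exact hyC (h ▸ hj)
    have hFy : ∀ j ∈ F, j ∉ ({y} : Finset (Fin m)) := fun j hj h => by
      rw [Finset.mem_singleton] at h; exact hyF (h ▸ hj)
    refine LW.step {b0} {y} ?_ ?_ ?_ ?_
    · intro b hb'
      rw [Finset.mem_singleton] at hb'
      subst hb'
      omega
    · intro j hj
      rw [Finset.mem_singleton] at hj
      subst hj
      omega
    · refine ih (l + 1) d (by omega) hd (by omega) _ _ _ _ ?_ ?_ ?_ ?_ ?_ ?_ ?_ ?_
      · rw [dec_of_mem hb0]; omega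
      · rw [dec_of_mem hb0]; omega
      · rw [dec_of_not_mem hb]; omega
      · rw [dec_of_not_mem hb]; omega
      · rw [dec_of_mem hy]; omega
      · omega
      · intro j hj
        rw [dec_of_not_mem (hCy j hj)]
        exact h5 j hj
      · intro j hj
        rw [dec_of_not_mem (hFy j hj)]
        exact h6 j hj
    · refine ih l (d + 1) hl (by omega) (by omega) _ _ _ _ ?_ ?_ ?_ ?_ ?_ ?_ ?_ ?_
      · rw [dec_of_mem hb0]; omega
      · omega
      · rw [dec_of_not_mem hb]; omega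
      · omega
      · rw [dec_of_mem hy]; omega
      · rw [dec_of_mem hy]; omega
      · intro j hj
        rw [dec_of_not_mem (hCy j hj), dec_of_not_mem (hCy j hj)]
        exact h5 j hj
      · intro j hj
        rw [dec_of_not_mem (hFy j hj), dec_of_not_mem (hFy j hj)]
        exact h6 j hj

/-- The position after the first stage. -/
private theorem fs_last (B N : ℕ) {tT nT : Fin q → ℕ} (hN : ∑ i, nT i = N)
    (hB : 50 * (q + 1) ≤ B) (hNB : N = q * B) (hT : ∀ i, tT i ≤ N + B + 1)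
    (B0 C F : Finset (Fin m)) (hB0 : B0.card = 512) (hC : C.card = 256) (hF : F.card = q + 1)
    (hCF : Disjoint C F) (hBC : Disjoint B0 C) (hBF : Disjoint B0 F)
    (y : Fin m) (hyB : y ∉ B0) (hyC : y ∉ C) (hyF : y ∉ F) (L D : Bool → ℕ)
    (hLD : ∀ b, (L b = 2 ∧ D b ≤ 3) ∨ (D b = 4 ∧ L b ≤ 1))
    (tX nX : Bool → ℕ) (tY nY : Fin m → ℕ)
    (e1 : ∀ b, tX b + L b + D b = N + 2 * B + 1) (e2 : ∀ b, nX b + L b = B)
    (e3 : ∀ j ∈ B0, tY j + L false + D false + L true + D true = N + 2 * B + 1 ∧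
      nY j + D false + D true = B)
    (e4 : ∀ j, j ∉ B0 → tY j = N + 2 * B + 1 ∧ nY j = B) : LW tT nT tX nX tY nY := by
  have h5 : ∀ j ∈ C, tY j = N + 2 * B + 1 ∧ nY j = B := fun j hj =>
    e4 j fun h => (Finset.disjoint_left.1 hBC h hj)
  have h6 : ∀ j ∈ F, tY j = N + 2 * B + 1 ∧ nY j = B := fun j hj =>
    e4 j fun h => (Finset.disjoint_left.1 hBF h hj)
  have hy := e4 y hyB
  have hf := hLD false
  have ht := hLD true
  have f1 := e1 false
  have t1 := e1 true
  have f2 := e2 false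
  have t2 := e2 true
  rcases hf with ⟨hf1, hf2⟩ | ⟨hf1, hf2⟩
  · rcases ht with ⟨ht1, ht2⟩ | ⟨ht1, ht2⟩
    · -- both Left twice
      refine beta1 17 16 (B - 5) (B - 14) 9 (B - 50) 8 y F hyF (by norm_num) ?_ ?_ ?_ ?_ ?_ ?_
        8 B0 ?_ hBF hyB tX nX tY nY (fun _ _ => 4) ?_ ?_ ?_ ?_ ?_ ?_ ?_ ?_ ?_ ?_
      · intro i
        have := hT i
        omega
      · intro i
        have := hT i
        omega
      · rw [hN, hF, hNB, Nat.add_mul, Nat.mul_sub]
        have : q * 50 ≤ q * B := Nat.mul_le_mul_left q (by omega)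
        omega
      · omega
      · omega
      · rw [hF]; omega
      · rw [hB0]; norm_num
      · omega
      · omega
      · omega
      · intro j hj b
        have := e3 j hj
        cases b <;> omega
      · intro j hj b
        have := e3 j hj
        cases b <;> omega
      · intro j hj
        norm_num
      · intro j hj
        have := e3 j hj
        omega
      · rintro j (rfl | hj)
        · omega
        · have := h6 j hj
          omega
      · rintro j (rfl | hj)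
        · omega
        · have := h6 j hj
          omega
      · intro j hj
        have := h6 j hj
        omega
    · -- false: Left, true: Down
      exact fs_third B N hN hB hNB hT C F hC hF hCF y hyC hyF false (D false) (L true) hf2 ht2 _
        0 0 (by omega) (by omega) rfl tX nX tY nY (by omega) (by omega)
        (by simp only [Bool.not_false]; omega) (by simp only [Bool.not_false]; omega)
        (by omega) (by omega) h5 h6
  · rcases ht with ⟨ht1, ht2⟩ | ⟨ht1, ht2⟩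
    · exact fs_third B N hN hB hNB hT C F hC hF hCF y hyC hyF true (D true) (L false) ht2 hf2 _
        0 0 (by omega) (by omega) rfl tX nX tY nY (by omega) (by omega)
        (by simp only [Bool.not_true]; omega) (by simp only [Bool.not_true]; omega)
        (by omega) (by omega) h5 h6
    · refine fs_alpha B N hN hB hNB hT C F hC hF hCF tX nX tY nY (fun _ => 2) ?_ ?_ ?_ ?_ h5 h6
      · intro b; cases b <;> omega
      · intro b; cases b <;> omega
      · intro b; cases b <;> omega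
      · norm_num

/-- The positions of the first stage. -/
private def FS (B N : ℕ) (tT nT : Fin q → ℕ) (B0 : Finset (Fin m)) (l0 d0 l1 d1 : ℕ) : Prop :=
  ∀ (tX nX : Bool → ℕ) (tY nY : Fin m → ℕ), tX false + l0 + d0 = N + 2 * B + 1 →
    tX true + l1 + d1 = N + 2 * B + 1 → nX false + l0 = B → nX true + l1 = B →
    (∀ j ∈ B0, tY j + l0 + d0 + l1 + d1 = N + 2 * B + 1 ∧ nY j + d0 + d1 = B) →
    (∀ j, j ∉ B0 → tY j = N + 2 * B + 1 ∧ nY j = B) → LW tT nT tX nX tY nY

private theorem fs_step0 {B N : ℕ} {tT nT : Fin q → ℕ} {B0 : Finset (Fin m)} (hB : 50 ≤ B)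
    {l0 d0 l1 d1 : ℕ} (hl0 : l0 ≤ 4) (hd0 : d0 ≤ 4) (hl1 : l1 ≤ 4) (hd1 : d1 ≤ 4)
    (h1 : FS B N tT nT B0 (l0 + 1) d0 l1 d1) (h2 : FS B N tT nT B0 l0 (d0 + 1) l1 d1) :
    FS B N tT nT B0 l0 d0 l1 d1 := by
  intro tX nX tY nY e1 e2 e3 e4 e5 e6
  have hf : false ∈ ({false} : Finset Bool) := Finset.mem_singleton_self _
  have ht : true ∉ ({false} : Finset Bool) := by decide
  refine LW.step {false} B0 ?_ ?_ ?_ ?_
  · intro b hb
    rw [Finset.mem_singleton] at hb
    subst hb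
    omega
  · intro j hj
    have := e5 j hj
    omega
  · refine h1 _ _ _ _ ?_ ?_ ?_ ?_ ?_ ?_
    · rw [dec_of_mem hf]; omega
    · rw [dec_of_not_mem ht]; omega
    · rw [dec_of_mem hf]; omega
    · rw [dec_of_not_mem ht]; omega
    · intro j hj
      have := e5 j hj
      rw [dec_of_mem hj]; omega
    · intro j hj
      rw [dec_of_not_mem hj]
      exact e6 j hj
  · refine h2 _ _ _ _ ?_ ?_ ?_ ?_ ?_ ?_
    · rw [dec_of_mem hf]; omega
    · rw [dec_of_not_mem ht]; omega
    · omega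
    · omega
    · intro j hj
      have := e5 j hj
      rw [dec_of_mem hj, dec_of_mem hj]; omega
    · intro j hj
      rw [dec_of_not_mem hj, dec_of_not_mem hj]
      exact e6 j hj

private theorem fs_step1 {B N : ℕ} {tT nT : Fin q → ℕ} {B0 : Finset (Fin m)} (hB : 50 ≤ B)
    {l0 d0 l1 d1 : ℕ} (hl0 : l0 ≤ 4) (hd0 : d0 ≤ 4) (hl1 : l1 ≤ 4) (hd1 : d1 ≤ 4)
    (h1 : FS B N tT nT B0 l0 d0 (l1 + 1) d1) (h2 : FS B N tT nT B0 l0 d0 l1 (d1 + 1)) :
    FS B N tT nT B0 l0 d0 l1 d1 := by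
  intro tX nX tY nY e1 e2 e3 e4 e5 e6
  have hf : true ∈ ({true} : Finset Bool) := Finset.mem_singleton_self _
  have ht : false ∉ ({true} : Finset Bool) := by decide
  refine LW.step {true} B0 ?_ ?_ ?_ ?_
  · intro b hb
    rw [Finset.mem_singleton] at hb
    subst hb
    omega
  · intro j hj
    have := e5 j hj
    omega
  · refine h1 _ _ _ _ ?_ ?_ ?_ ?_ ?_ ?_
    · rw [dec_of_not_mem ht]; omega
    · rw [dec_of_mem hf]; omega
    · rw [dec_of_not_mem ht]; omega
    · rw [dec_of_mem hf]; omega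
    · intro j hj
      have := e5 j hj
      rw [dec_of_mem hj]; omega
    · intro j hj
      rw [dec_of_not_mem hj]
      exact e6 j hj
  · refine h2 _ _ _ _ ?_ ?_ ?_ ?_ ?_ ?_
    · rw [dec_of_not_mem ht]; omega
    · rw [dec_of_mem hf]; omega
    · omega
    · omega
    · intro j hj
      have := e5 j hj
      rw [dec_of_mem hj, dec_of_mem hj]; omega
    · intro j hj
      rw [dec_of_not_mem hj, dec_of_not_mem hj]
      exact e6 j hj

private theorem fs_true {B N : ℕ} {tT nT : Fin q → ℕ} {B0 : Finset (Fin m)} (hB : 50 ≤ B)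
    (hlast : ∀ l0 d0 l1 d1, ((l0 = 2 ∧ d0 ≤ 3) ∨ (d0 = 4 ∧ l0 ≤ 1)) →
      ((l1 = 2 ∧ d1 ≤ 3) ∨ (d1 = 4 ∧ l1 ≤ 1)) → FS B N tT nT B0 l0 d0 l1 d1)
    {l0 d0 : ℕ} (h0 : (l0 = 2 ∧ d0 ≤ 3) ∨ (d0 = 4 ∧ l0 ≤ 1)) (k : ℕ) :
    ∀ l1 d1, ((l1 ≤ 2 ∧ d1 ≤ 3) ∨ (l1 ≤ 1 ∧ d1 ≤ 4)) → (2 - l1) + (4 - d1) = k →
    FS B N tT nT B0 l0 d0 l1 d1 := by
  induction k with
  | zero => intro l1 d1 h hk; exact hlast _ _ _ _ h0 (by omega)
  | succ k ih =>
    intro l1 d1 h hk
    by_cases ht : (l1 = 2 ∧ d1 ≤ 3) ∨ (d1 = 4 ∧ l1 ≤ 1)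
    · exact hlast _ _ _ _ h0 ht
    · exact fs_step1 hB (by omega) (by omega) (by omega) (by omega)
        (ih (l1 + 1) d1 (by omega) (by omega)) (ih l1 (d1 + 1) (by omega) (by omega))

private theorem fs_false {B N : ℕ} {tT nT : Fin q → ℕ} {B0 : Finset (Fin m)} (hB : 50 ≤ B)
    (hlast : ∀ l0 d0 l1 d1, ((l0 = 2 ∧ d0 ≤ 3) ∨ (d0 = 4 ∧ l0 ≤ 1)) →
      ((l1 = 2 ∧ d1 ≤ 3) ∨ (d1 = 4 ∧ l1 ≤ 1)) → FS B N tT nT B0 l0 d0 l1 d1) (k : ℕ) :
    ∀ l0 d0, ((l0 ≤ 2 ∧ d0 ≤ 3) ∨ (l0 ≤ 1 ∧ d0 ≤ 4)) → (2 - l0) + (4 - d0) = k →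
    FS B N tT nT B0 l0 d0 0 0 := by
  induction k with
  | zero => intro l0 d0 h hk; exact fs_true hB hlast (by omega) _ 0 0 (by omega) rfl
  | succ k ih =>
    intro l0 d0 h hk
    by_cases ht : (l0 = 2 ∧ d0 ≤ 3) ∨ (d0 = 4 ∧ l0 ≤ 1)
    · exact fs_true hB hlast ht _ 0 0 (by omega) rfl
    · exact fs_step0 hB (by omega) (by omega) (by omega) (by omega)
        (ih (l0 + 1) d0 (by omega) (by omega)) (ih l0 (d0 + 1) (by omega) (by omega))

private theorem fs_sets (q m : ℕ) (hm : q + 770 ≤ m) : ∃ (B0 C F : Finset (Fin m)) (y : Fin m),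
    B0.card = 512 ∧ C.card = 256 ∧ F.card = q + 1 ∧ Disjoint C F ∧ Disjoint B0 C ∧
    Disjoint B0 F ∧ y ∉ B0 ∧ y ∉ C ∧ y ∉ F := by
  obtain ⟨e⟩ : Nonempty ((Fin 512 ⊕ Fin 256 ⊕ Fin (q + 1) ⊕ Fin 1) ↪ Fin m) :=
    Function.Embedding.nonempty_of_card_le (by simp; omega)
  have hi := e.injective
  refine ⟨Finset.univ.map (Function.Embedding.inl.trans e),
    Finset.univ.map (Function.Embedding.inl.trans (Function.Embedding.inr.trans e)),
    Finset.univ.map (Function.Embedding.inl.trans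
      (Function.Embedding.inr.trans (Function.Embedding.inr.trans e))),
    e (Sum.inr (Sum.inr (Sum.inr 0))), ?_, ?_, ?_, ?_, ?_, ?_, ?_, ?_, ?_⟩
  · rw [Finset.card_map, Finset.card_univ, Fintype.card_fin]
  · rw [Finset.card_map, Finset.card_univ, Fintype.card_fin]
  · rw [Finset.card_map, Finset.card_univ, Fintype.card_fin]
  · rw [Finset.disjoint_left]
    intro z hz hz'
    obtain ⟨a, _, ha⟩ := Finset.mem_map.1 hz
    obtain ⟨a', _, ha'⟩ := Finset.mem_map.1 hz'
    have := hi (ha.trans ha'.symm)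
    simp at this
  · rw [Finset.disjoint_left]
    intro z hz hz'
    obtain ⟨a, _, ha⟩ := Finset.mem_map.1 hz
    obtain ⟨a', _, ha'⟩ := Finset.mem_map.1 hz'
    have := hi (ha.trans ha'.symm)
    simp at this
  · rw [Finset.disjoint_left]
    intro z hz hz'
    obtain ⟨a, _, ha⟩ := Finset.mem_map.1 hz
    obtain ⟨a', _, ha'⟩ := Finset.mem_map.1 hz'
    have := hi (ha.trans ha'.symm)
    simp at this
  · intro hz
    obtain ⟨a, _, ha⟩ := Finset.mem_map.1 hz
    have := hi ha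
    simp at this
  · intro hz
    obtain ⟨a, _, ha⟩ := Finset.mem_map.1 hz
    have := hi ha
    simp at this
  · intro hz
    obtain ⟨a, _, ha⟩ := Finset.mem_map.1 hz
    have := hi ha
    simp at this

/-- Module First (uses alpha1, beta1). -/
theorem lister (q m b : ℕ) (hm : q + 770 ≤ m) (hb : 50 * (q + 1) ≤ b) :
    LW (q := q) (m := m) (fun i => b * (i + 2) + 1) (fun _ => b)
      (fun _ => b * (q + 2) + 1) (fun _ => b) (fun _ => b * (q + 2) + 1) (fun _ => b) := by
  obtain ⟨B0, C, F, y, hB0, hC, hF, hCF, hBC, hBF, hyB, hyC, hyF⟩ := fs_sets q m hm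
  have hN : ∑ _i : Fin q, b = q * b := by
    rw [Finset.sum_const, Finset.card_univ, Fintype.card_fin, smul_eq_mul]
  have hT : ∀ i : Fin q, b * ((i : ℕ) + 2) + 1 ≤ q * b + b + 1 := by
    intro i
    have h1 : (i : ℕ) + 2 ≤ q + 1 := by have := i.isLt; omega
    have h2 : b * ((i : ℕ) + 2) ≤ b * (q + 1) := Nat.mul_le_mul_left b h1
    have h3 : b * (q + 1) = q * b + b := by ring
    omega
  have hX : b * (q + 2) + 1 = q * b + 2 * b + 1 := by ring
  refine fs_false (B := b) (N := q * b) (B0 := B0) (by omega) ?_ _ 0 0 (by omega) rfl _ _ _ _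
    ?_ ?_ ?_ ?_ ?_ ?_
  · intro l0 d0 l1 d1 h0 h1 tX nX tY nY e1 e2 e3 e4 e5 e6
    refine fs_last b (q * b) hN hb rfl hT B0 C F hB0 hC hF hCF hBC hBF y hyB hyC hyF
      (fun c => cond c l1 l0) (fun c => cond c d1 d0) ?_ tX nX tY nY ?_ ?_ ?_ e6
    · intro c; cases c <;> simp only [cond_true, cond_false] <;> assumption
    · intro c; cases c <;> simp only [cond_true, cond_false] <;> assumption
    · intro c; cases c <;> simp only [cond_true, cond_false] <;> assumption
    · intro j hj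
      simp only [cond_true, cond_false]
      exact e5 j hj
  · omega
  · omega
  · omega
  · omega
  · intro j _
    omega
  · intro j _
    omega

end Pool.Agent.Helper95.SP
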