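import Pool.Agent.Helper95.SP.R0

set_option autoImplicit false

/-!
Painter's strategy when one vertex of the first side is unfinished.
-/

namespace Pool.Agent.Helper95.SP

open Set Pool.Agent.Helper37.Paint

variable {q m : ℕ}

section
variable {T' : Finset (Fin q)} {Y' : Finset (Fin m)} {tT : Fin q → ℕ} {tX : Bool → ℕ}
  {tY : Fin m → ℕ}

/-- Tight leaves after a call were tight and presented. -/
theorem R1.tight_dec {Y' MY : Finset (Fin m)} {tY : Fin m → ℕ} {c : ℕ}
    (hY : ∀ j ∈ Y', c + 1 ≤ tY j) :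
    (Y'.filter (fun j => dec tY MY j = c)).card ≤ (MY.filter (fun j => tY j = c + 1)).card := by
  refine Finset.card_le_card fun j hj => ?_
  rw [Finset.mem_filter] at hj ⊢
  have h1 := hY j hj.1
  by_cases hM : j ∈ MY
  · rw [dec_of_mem hM] at hj
    exact ⟨hM, by omega⟩
  · rw [dec_of_not_mem hM] at hj
    omega

/-- Tight leaves after the presented leaves have been coloured. -/
theorem R1.tight_sdiff {Y' MY : Finset (Fin m)} (hM : MY ⊆ Y') {tY : Fin m → ℕ} {c : ℕ} :
    ((Y' \ MY).filter (fun j => dec tY MY j = c)).card +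
      (MY.filter (fun j => tY j = c)).card ≤ (Y'.filter (fun j => tY j = c)).card := by
  have e : (Y' \ MY).filter (fun j => dec tY MY j = c) = (Y' \ MY).filter (fun j => tY j = c) := by
    refine Finset.filter_congr fun j hj => ?_
    rw [dec_of_not_mem (Finset.mem_sdiff.1 hj).2]
  rw [e, ← Finset.card_union_of_disjoint]
  · refine Finset.card_le_card fun j hj => ?_
    rcases Finset.mem_union.1 hj with h | h
    · rw [Finset.mem_filter] at h ⊢
      exact ⟨(Finset.mem_sdiff.1 h.1).1, h.2⟩
    · rw [Finset.mem_filter] at h ⊢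
      exact ⟨hM h.1, h.2⟩
  · rw [Finset.disjoint_left]
    intro j h1 h2
    exact (Finset.mem_sdiff.1 (Finset.mem_filter.1 h1).1).2 (Finset.mem_filter.1 h2).1

theorem R1.le_dec_sdiff {Y' MY : Finset (Fin m)} {tY : Fin m → ℕ} {c : ℕ}
    (hY : ∀ j ∈ Y', c ≤ tY j) : ∀ j ∈ Y' \ MY, c ≤ dec tY MY j := by
  intro j hj
  rw [dec_of_not_mem (Finset.mem_sdiff.1 hj).2]
  exact hY j (Finset.mem_sdiff.1 hj).1

theorem R1.le_dec_pass {Y' MY : Finset (Fin m)} {tY : Fin m → ℕ} {c : ℕ}
    (hY : ∀ j ∈ Y', c + 1 ≤ tY j) : ∀ j ∈ Y', c ≤ dec tY MY j := by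
  intro j hj
  have h1 := hY j hj
  have h2 := le_dec tY MY j
  omega

/-- If no tight leaf is presented. -/
theorem R1.le_dec_free {Y' MY : Finset (Fin m)} {tY : Fin m → ℕ} {c : ℕ}
    (hY : ∀ j ∈ Y', c ≤ tY j) (h0 : (MY.filter (fun j => tY j = c)).card = 0) :
    ∀ j ∈ Y', c ≤ dec tY MY j := by
  intro j hj
  have h1 := hY j hj
  by_cases hM : j ∈ MY
  · rw [dec_of_mem hM]
    have h2 : tY j ≠ c := by
      intro h2
      have : j ∈ MY.filter (fun j => tY j = c) := Finset.mem_filter.2 ⟨hM, h2⟩
      rw [Finset.card_eq_zero] at h0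
      rw [h0] at this
      exact absurd this (Finset.notMem_empty j)
    omega
  · rw [dec_of_not_mem hM]
    exact h1

/-- Module R1. -/
theorem R10 (b : Bool) (hT : TC 0 T' tT) (hY : ∀ j ∈ Y', T'.card + 1 ≤ tY j)
    (hz : (Y'.filter (fun j => tY j = T'.card + 1)).card + T'.card + 1 ≤ tX b) :
    PP T' {b} Y' tT tX tY := by
  refine PP.of_inv (fun T' X' Y' tT tX tY => ∃ b : Bool, X' = {b} ∧ TC 0 T' tT ∧
    (∀ j ∈ Y', T'.card + 1 ≤ tY j) ∧
    (Y'.filter (fun j => tY j = T'.card + 1)).card + T'.card + 1 ≤ tX b) ?_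
    ⟨b, rfl, hT, hY, hz⟩
  clear hT hY hz
  rintro T' X' Y' tT tX tY ⟨b, rfl, hT, hY, hz⟩
  refine ⟨fun i hi => hT.one_le hi, ?_, ?_, ?_⟩
  · intro b' hb'
    rw [Finset.mem_singleton] at hb'
    subst hb'
    omega
  · intro j hj
    have := hY j hj
    omega
  intro MT hMT MX hMX MY hMY
  by_cases hne : MT.Nonempty
  · refine Or.inl ⟨MT.min' hne, MT.min'_mem hne, Or.inl ⟨b, rfl, hT.pass hMT hne, ?_, ?_⟩⟩
    · have hc : (T'.erase (MT.min' hne)).card + 1 = T'.card :=
        Finset.card_erase_add_one (hMT (MT.min'_mem hne))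
      rw [hc]
      exact R1.le_dec_pass hY
    · have hc : (T'.erase (MT.min' hne)).card + 1 = T'.card :=
        Finset.card_erase_add_one (hMT (MT.min'_mem hne))
      rw [hc]
      have h1 := R1.tight_dec (MY := MY) hY
      have h2 := R1.tight_sdiff (tY := tY) (c := T'.card + 1) hMY
      have h3 := le_dec tX MX b
      omega
  · rw [Finset.not_nonempty_iff_eq_empty] at hne
    subst hne
    right
    rcases Finset.subset_singleton_iff.1 hMX with rfl | rfl
    · refine Or.inr (Or.inl ⟨b, rfl, hT.same, R1.le_dec_sdiff hY, ?_⟩)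
      have h2 := R1.tight_sdiff (tY := tY) (c := T'.card + 1) hMY
      rw [dec_of_not_mem (Finset.notMem_empty b)]
      omega
    · by_cases hs : (MY.filter (fun j => tY j = T'.card + 1)).card = 0
      · refine Or.inl (Or.inr ?_)
        rw [Finset.sdiff_self]
        exact R00 hT.same (R1.le_dec_free hY hs)
      · refine Or.inr (Or.inl ⟨b, rfl, hT.same, R1.le_dec_sdiff hY, ?_⟩)
        have h2 := R1.tight_sdiff (tY := tY) (c := T'.card + 1) hMY
        have h3 := le_dec tX {b} b
        omega

/-- Module R1. -/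
theorem R11 (b : Bool) (hT : TC 1 T' tT) (hb : 1 ≤ tX b) (hY : ∀ j ∈ Y', T'.card + 1 ≤ tY j)
    (hz : (Y'.filter (fun j => tY j = T'.card + 1)).card ≤
      (tX b - 1 - T'.card) * (T'.card + 1)) : PP T' {b} Y' tT tX tY := by
  refine PP.of_inv (fun T' X' Y' tT tX tY => ∃ b : Bool, X' = {b} ∧ TC 1 T' tT ∧ 1 ≤ tX b ∧
    (∀ j ∈ Y', T'.card + 1 ≤ tY j) ∧
    (Y'.filter (fun j => tY j = T'.card + 1)).card ≤ (tX b - 1 - T'.card) * (T'.card + 1)) ?_
    ⟨b, rfl, hT, hb, hY, hz⟩
  clear hT hb hY hz
  rintro T' X' Y' tT tX tY ⟨b, rfl, hT, hb, hY, hz⟩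
  refine ⟨fun i hi => hT.one_le hi, ?_, ?_, ?_⟩
  · intro b' hb'
    rw [Finset.mem_singleton] at hb'
    subst hb'
    exact hb
  · intro j hj
    have := hY j hj
    omega
  intro MT hMT MX hMX MY hMY
  have hsd := R1.tight_sdiff (tY := tY) (c := T'.card + 1) hMY
  have htd := R1.tight_dec (MY := MY) hY
  by_cases hne : MT.Nonempty
  · have hc : (T'.erase (MT.min' hne)).card + 1 = T'.card :=
      Finset.card_erase_add_one (hMT (MT.min'_mem hne))
    obtain ⟨k, hk⟩ : ∃ k, T'.card = k + 1 := ⟨T'.card - 1, by omega⟩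
    have hc' : (T'.erase (MT.min' hne)).card = k := by omega
    rcases Finset.subset_singleton_iff.1 hMX with rfl | rfl
    · by_cases hs : (MY.filter (fun j => tY j = T'.card + 1)).card ≤ (tX b - 1 - k) * (k + 1)
      · refine Or.inl ⟨MT.min' hne, MT.min'_mem hne,
          Or.inl ⟨b, rfl, hT.pass hMT hne, ?_, ?_, ?_⟩⟩
        · rw [dec_of_not_mem (Finset.notMem_empty b)]
          exact hb
        · rw [hc]
          exact R1.le_dec_pass hY
        · rw [hc, hc', dec_of_not_mem (Finset.notMem_empty b), hk]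
          rw [hk] at htd hs
          exact htd.trans hs
      · refine Or.inr (Or.inr (Or.inr ?_))
        refine R10 b (hT.non MT) (R1.le_dec_sdiff hY) ?_
        rw [dec_of_not_mem (Finset.notMem_empty b)]
        rw [hk] at hs hsd hz ⊢
        set z := (Y'.filter (fun j => tY j = k + 1 + 1)).card
        set s := (MY.filter (fun j => tY j = k + 1 + 1)).card
        set z' := ((Y' \ MY).filter (fun j => dec tY MY j = k + 1 + 1)).card
        obtain ⟨V, hV⟩ : ∃ V, tX b - 1 - (k + 1) = V := ⟨_, rfl⟩
        rw [hV] at hz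
        rcases Nat.eq_zero_or_pos V with hV0 | hVpos
        · subst hV0
          omega
        · have e1 : tX b = V + k + 2 := by omega
          have e2 : tX b - 1 - k = V + 1 := by omega
          rw [e2] at hs
          have e3 : (V + 1) * (k + 1) = V * k + V + k + 1 := by ring
          have e4 : V * (k + 1 + 1) = V * k + V + V := by ring
          rw [e3] at hs
          rw [e4] at hz
          omega
    · by_cases hs0 : (MY.filter (fun j => tY j = T'.card + 1)).card = 0
      · refine Or.inr (Or.inl (Or.inr ?_))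
        rw [Finset.sdiff_self]
        exact R00 (hT.non MT) (R1.le_dec_free hY hs0)
      · have hbd : dec tX {b} b = tX b - 1 := dec_of_mem (Finset.mem_singleton_self b)
        obtain ⟨V, hV⟩ : ∃ V, tX b - 1 - T'.card = V := ⟨_, rfl⟩
        rw [hV] at hz
        rcases Nat.eq_zero_or_pos V with hV0 | hVpos
        · subst hV0
          omega
        by_cases hs : ((Y' \ MY).filter (fun j => dec tY MY j = T'.card + 1)).card + 1 ≤ V
        · refine Or.inr (Or.inr (Or.inr ?_))
          refine R10 b (hT.non MT) (R1.le_dec_sdiff hY) ?_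
          rw [hbd]
          omega
        · refine Or.inl ⟨MT.min' hne, MT.min'_mem hne,
            Or.inl ⟨b, rfl, hT.pass hMT hne, ?_, ?_, ?_⟩⟩
          · rw [hbd]
            omega
          · rw [hc]
            exact R1.le_dec_pass hY
          · rw [hc, hc', hbd]
            have e1 : tX b - 1 - 1 - k = V := by omega
            rw [e1]
            have e4 : V * (T'.card + 1) = V * T'.card + V := by ring
            rw [e4] at hz
            omega
  · rw [Finset.not_nonempty_iff_eq_empty] at hne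
    subst hne
    right
    rcases Finset.subset_singleton_iff.1 hMX with rfl | rfl
    · refine Or.inr (Or.inl ⟨b, rfl, hT.same, ?_, R1.le_dec_sdiff hY, ?_⟩)
      · rw [dec_of_not_mem (Finset.notMem_empty b)]
        exact hb
      · rw [dec_of_not_mem (Finset.notMem_empty b)]
        omega
    · have hbd : dec tX {b} b = tX b - 1 := dec_of_mem (Finset.mem_singleton_self b)
      by_cases hs : (MY.filter (fun j => tY j = T'.card + 1)).card ≤ T'.card
      · refine Or.inl (Or.inr ?_)
        rw [Finset.sdiff_self]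
        refine R01 hT.same ?_ (htd.trans hs)
        intro j hj
        refine ⟨R1.le_dec_pass hY j hj, ?_⟩
        rcases Nat.eq_zero_or_pos T'.card with h0 | hpos
        · have h1 := R1.le_dec_free hY (by omega) (MY := MY) j hj
          omega
        · have h1 := R1.le_dec_pass (MY := MY) hY j hj
          omega
      · obtain ⟨V, hV⟩ : ∃ V, tX b - 1 - T'.card = V := ⟨_, rfl⟩
        rw [hV] at hz
        rcases Nat.eq_zero_or_pos V with hV0 | hVpos
        · subst hV0
          omega
        refine Or.inr (Or.inl ⟨b, rfl, hT.same, ?_, R1.le_dec_sdiff hY, ?_⟩)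
        · rw [hbd]
          omega
        · rw [hbd]
          obtain ⟨W, rfl⟩ : ∃ W, V = W + 1 := ⟨V - 1, by omega⟩
          have e1 : tX b - 1 - 1 - T'.card = W := by omega
          rw [e1]
          have e4 : (W + 1) * (T'.card + 1) = W * (T'.card + 1) + T'.card + 1 := by ring
          rw [e4] at hz
          omega

end

end Pool.Agent.Helper95.SP
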