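import Pool.Agent.Helper95.SP.PBase

set_option autoImplicit false

/-!
Module R0: Painter's replies when both vertices of the first side are coloured.
-/

namespace Pool.Agent.Helper95.SP

open Set Pool.Agent.Helper37.Paint

section
variable {q m : ℕ} {T' : Finset (Fin q)} {Y' : Finset (Fin m)} {tT : Fin q → ℕ} {tX : Bool → ℕ}
  {tY : Fin m → ℕ}

/-- Module R0. -/
theorem R00 (hT : TC 0 T' tT) (hY : ∀ j ∈ Y', T'.card + 1 ≤ tY j) : PP T' ∅ Y' tT tX tY := by
  refine PP.of_inv (fun T' X' Y' tT tX tY => X' = ∅ ∧ TC 0 T' tT ∧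
    ∀ j ∈ Y', T'.card + 1 ≤ tY j) ?_ ⟨rfl, hT, hY⟩
  clear hT hY
  rintro T' X' Y' tT tX tY ⟨hX, hT, hY⟩
  subst hX
  refine ⟨fun i hi => hT.one_le hi, fun b hb => absurd hb (Finset.notMem_empty b),
    fun j hj => by have := hY j hj; omega, ?_⟩
  intro MT hMT MX hMX MY hMY
  rcases MT.eq_empty_or_nonempty with h | hne
  · right; right; left
    subst h
    refine ⟨rfl, hT.same, fun j hj => ?_⟩
    rw [Finset.mem_sdiff] at hj
    rw [dec_of_not_mem hj.2]
    exact hY j hj.1
  · left
    refine ⟨MT.min' hne, MT.min'_mem hne, Or.inl ⟨rfl, hT.pass hMT hne, fun j hj => ?_⟩⟩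
    have hc := Finset.card_erase_of_mem (hMT (MT.min'_mem hne))
    have hpos : 0 < T'.card := Finset.card_pos.2 ⟨_, hMT (MT.min'_mem hne)⟩
    have h1 := hY j hj
    have h2 : tY j ≤ dec tY MY j + 1 := by
      unfold dec
      split_ifs <;> omega
    omega

/-- Module R0. -/
theorem R01 (hT : TC 1 T' tT) (hY : ∀ j ∈ Y', T'.card ≤ tY j ∧ 1 ≤ tY j)
    (hz : (Y'.filter (fun j => tY j = T'.card)).card ≤ T'.card) : PP T' ∅ Y' tT tX tY := by
  refine PP.of_inv (fun T' X' Y' tT tX tY => X' = ∅ ∧ TC 1 T' tT ∧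
    (∀ j ∈ Y', T'.card ≤ tY j ∧ 1 ≤ tY j) ∧
    (Y'.filter (fun j => tY j = T'.card)).card ≤ T'.card) ?_ ⟨rfl, hT, hY, hz⟩
  clear hT hY hz
  rintro T' X' Y' tT tX tY ⟨hX, hT, hY, hz⟩
  subst hX
  refine ⟨fun i hi => hT.one_le hi, fun b hb => absurd hb (Finset.notMem_empty b),
    fun j hj => (hY j hj).2, ?_⟩
  intro MT hMT MX hMX MY hMY
  rcases MT.eq_empty_or_nonempty with h | hne
  · right; right; left
    subst h
    refine ⟨rfl, hT.same, fun j hj => ?_, ?_⟩
    · rw [Finset.mem_sdiff] at hj
      rw [dec_of_not_mem hj.2]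
      exact hY j hj.1
    · refine le_trans (Finset.card_le_card ?_) hz
      intro j hj
      rw [Finset.mem_filter, Finset.mem_sdiff] at hj
      rw [dec_of_not_mem hj.1.2] at hj
      exact Finset.mem_filter.2 ⟨hj.1.1, hj.2⟩
  · have hmin := hMT (MT.min'_mem hne)
    have hpos : 0 < T'.card := Finset.card_pos.2 ⟨_, hmin⟩
    have hc := Finset.card_erase_of_mem hmin
    by_cases hZ : Y'.filter (fun j => tY j = T'.card) ⊆ MY
    · right; right; right
      refine R00 (hT.non MT) (fun j hj => ?_)
      rw [Finset.mem_sdiff] at hj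
      rw [dec_of_not_mem hj.2]
      have h1 := (hY j hj.1).1
      have h2 : tY j ≠ T'.card := fun h => hj.2 (hZ (Finset.mem_filter.2 ⟨hj.1, h⟩))
      omega
    · left
      obtain ⟨j0, hj0, hj0'⟩ := Finset.not_subset.1 hZ
      refine ⟨MT.min' hne, MT.min'_mem hne, Or.inl ⟨rfl, hT.pass hMT hne, fun j hj => ?_, ?_⟩⟩
      · have h1 := hY j hj
        by_cases hjM : j ∈ MY
        · rw [dec_of_mem hjM]
          refine ⟨by omega, ?_⟩
          by_cases h2 : 2 ≤ T'.card
          · omega
          · by_contra hcon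
            have hj1 : tY j = T'.card := by omega
            have hjZ : j ∈ Y'.filter (fun j => tY j = T'.card) := Finset.mem_filter.2 ⟨hj, hj1⟩
            have hone : (Y'.filter (fun j => tY j = T'.card)).card ≤ 1 := by omega
            have := Finset.card_le_one.1 hone j hjZ j0 hj0
            subst this
            exact hj0' hjM
        · rw [dec_of_not_mem hjM]
          omega
      · have hlt : (Y'.filter (fun j => dec tY MY j = (T'.erase (MT.min' hne)).card)).card <
            (Y'.filter (fun j => tY j = T'.card)).card := by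
          apply Finset.card_lt_card
          rw [Finset.ssubset_iff_subset_ne]
          have hsub : Y'.filter (fun j => dec tY MY j = (T'.erase (MT.min' hne)).card) ⊆
              (Y'.filter (fun j => tY j = T'.card)) ∩ MY := by
            intro j hj
            rw [Finset.mem_filter] at hj
            obtain ⟨hj1, hj2⟩ := hj
            have h1 := hY j hj1
            by_cases hjM : j ∈ MY
            · rw [dec_of_mem hjM] at hj2
              exact Finset.mem_inter.2 ⟨Finset.mem_filter.2 ⟨hj1, by omega⟩, hjM⟩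
            · rw [dec_of_not_mem hjM] at hj2
              omega
          refine ⟨fun j hj => (Finset.mem_inter.1 (hsub hj)).1, fun heq => ?_⟩
          rw [← heq] at hj0
          exact hj0' (Finset.mem_inter.1 (hsub hj0)).2
        omega

end

end Pool.Agent.Helper95.SP
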