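import Pool.Agent.Helper95.SP.PBase
import Pool.Agent.Helper95.SP.R0
import Pool.Agent.Helper95.SP.R1

/-!
Module R2: the painter strategy with both vertices of the side `X` unfinished and no spare token
in the clique.
-/

set_option autoImplicit false

namespace Pool.Agent.Helper95.SP

open Set Pool.Agent.Helper37.Paint

variable {q m : ℕ}

namespace R2

/-- the invariant -/
def Inv (T' : Finset (Fin q)) (X' : Finset Bool) (Y' : Finset (Fin m)) (tT : Fin q → ℕ)
    (tX : Bool → ℕ) (tY : Fin m → ℕ) : Prop :=
  X' = Finset.univ ∧ TC 0 T' tT ∧ (∀ b, T'.card + 1 ≤ tX b) ∧ (∀ j ∈ Y', T'.card + 2 ≤ tY j) ∧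
    (Y'.filter (fun j => tY j = T'.card + 2)).card <
      (tX false - T'.card) * (tX true - T'.card)

/-- the case where the clique is not presented and exactly one vertex `b` of the side `X` is -/
theorem one {T' : Finset (Fin q)} {Y' : Finset (Fin m)} {tT : Fin q → ℕ}
    {tX : Bool → ℕ} {tY : Fin m → ℕ} (hT : TC 0 T' tT) (hX : ∀ b, T'.card + 1 ≤ tX b)
    (hY : ∀ j ∈ Y', T'.card + 2 ≤ tY j) (b : Bool)
    (hz : (Y'.filter (fun j => tY j = T'.card + 2)).card <
      (tX b - T'.card) * (tX (!b) - T'.card)) {MY : Finset (Fin m)} (hM : MY ⊆ Y') :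
    PP T' (Finset.univ \ {b}) Y' (dec tT ∅) (dec tX {b}) (dec tY MY) ∨
      ((∀ c, T'.card + 1 ≤ dec tX {b} c) ∧
        ((Y' \ MY).filter (fun j => dec tY MY j = T'.card + 2)).card <
          (dec tX {b} b - T'.card) * (dec tX {b} (!b) - T'.card)) := by
  have hnb : (!b) ∉ ({b} : Finset Bool) := by cases b <;> simp
  have e1 : dec tX {b} b = tX b - 1 := dec_of_mem (by simp)
  have e2 : dec tX {b} (!b) = tX (!b) := dec_of_not_mem hnb
  set s := (MY.filter (fun j => tY j = T'.card + 2)).card with hs
  by_cases h1 : s + T'.card + 1 ≤ tX (!b)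
  · left
    have hu : (Finset.univ \ {b} : Finset Bool) = {!b} := by cases b <;> decide
    rw [hu]
    apply R10 (!b) hT.same
    · intro j hj
      have := hY j hj
      have := le_dec tY MY j
      omega
    · rw [e2]
      refine le_trans ?_ h1
      have : (Y'.filter (fun j => dec tY MY j = T'.card + 1)).card ≤ s := by
        apply Finset.card_le_card
        intro j hj
        rw [Finset.mem_filter] at hj ⊢
        have h2 := hY j hj.1
        by_cases hjM : j ∈ MY
        · rw [dec_of_mem hjM] at hj
          exact ⟨hjM, by omega⟩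
        · rw [dec_of_not_mem hjM] at hj
          omega
      omega
  · right
    push Not at h1
    have h3 := hX b
    have h4 := hX (!b)
    -- the tight leaves
    have hsplit : ((Y' \ MY).filter (fun j => dec tY MY j = T'.card + 2)).card + s =
        (Y'.filter (fun j => tY j = T'.card + 2)).card := by
      rw [hs, ← Finset.card_union_of_disjoint]
      · congr 1
        ext j
        simp only [Finset.mem_union, Finset.mem_filter, Finset.mem_sdiff]
        constructor
        · rintro (⟨⟨hj1, hj2⟩, hj3⟩ | ⟨hj1, hj2⟩)
          · rw [dec_of_not_mem hj2] at hj3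
            exact ⟨hj1, hj3⟩
          · exact ⟨hM hj1, hj2⟩
        · rintro ⟨hj1, hj2⟩
          by_cases hjM : j ∈ MY
          · exact Or.inr ⟨hjM, hj2⟩
          · refine Or.inl ⟨⟨hj1, hjM⟩, ?_⟩
            rw [dec_of_not_mem hjM]
            exact hj2
      · rw [Finset.disjoint_left]
        intro j hj1 hj2
        rw [Finset.mem_filter, Finset.mem_sdiff] at hj1
        rw [Finset.mem_filter] at hj2
        exact hj1.1.2 hj2.1
    obtain ⟨u, hu⟩ : ∃ u, tX b = T'.card + u := ⟨tX b - T'.card, by omega⟩
    obtain ⟨v, hv⟩ : ∃ v, tX (!b) = T'.card + v := ⟨tX (!b) - T'.card, by omega⟩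
    have hu' : tX b - T'.card = u := by omega
    have hv' : tX (!b) - T'.card = v := by omega
    rw [hu', hv'] at hz
    have hsv : v ≤ s := by omega
    have hu1 : 2 ≤ u := by
      by_contra hlt
      have hu0 : u ≤ 1 := by omega
      have : u * v ≤ 1 * v := Nat.mul_le_mul_right v hu0
      omega
    constructor
    · intro c
      by_cases hc : c = b
      · rw [hc, e1]
        omega
      · have hcb : c = !b := by cases c <;> cases b <;> simp_all
        rw [hcb, e2]
        omega
    · rw [e1, e2, hv']
      have e3 : tX b - 1 - T'.card = u - 1 := by omega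
      rw [e3]
      obtain ⟨u', rfl⟩ : ∃ u', u = u' + 1 := ⟨u - 1, by omega⟩
      have e4 : (u' + 1) * v = u' * v + v := by ring
      rw [e4] at hz
      simp only [Nat.add_sub_cancel]
      omega

theorem step {T' : Finset (Fin q)} {X' : Finset Bool} {Y' : Finset (Fin m)} {tT : Fin q → ℕ}
    {tX : Bool → ℕ} {tY : Fin m → ℕ} (h : Inv T' X' Y' tT tX tY) :
      (∀ i ∈ T', 1 ≤ tT i) ∧ (∀ b ∈ X', 1 ≤ tX b) ∧ (∀ j ∈ Y', 1 ≤ tY j) ∧
      ∀ MT ⊆ T', ∀ MX ⊆ X', ∀ MY ⊆ Y',
        (∃ i ∈ MT, Inv (T'.erase i) X' Y' (dec tT MT) (dec tX MX) (dec tY MY) ∨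
          PP (T'.erase i) X' Y' (dec tT MT) (dec tX MX) (dec tY MY)) ∨
        (Inv T' (X' \ MX) Y' (dec tT MT) (dec tX MX) (dec tY MY) ∨
          PP T' (X' \ MX) Y' (dec tT MT) (dec tX MX) (dec tY MY)) ∨
        (Inv T' X' (Y' \ MY) (dec tT MT) (dec tX MX) (dec tY MY) ∨
          PP T' X' (Y' \ MY) (dec tT MT) (dec tX MX) (dec tY MY)) := by
  obtain ⟨rfl, hT, hX, hY, hz⟩ := h
  refine ⟨fun i hi => hT.one_le hi, fun b _ => ?_, fun j hj => ?_, ?_⟩
  · have := hX b
    omega
  · have := hY j hj
    omega
  intro MT hMT MX _ MY hMY
  rcases MT.eq_empty_or_nonempty with rfl | hne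
  · right
    by_cases hb : ∃ b : Bool, MX = {b}
    · obtain ⟨b, rfl⟩ := hb
      have hz' : (Y'.filter (fun j => tY j = T'.card + 2)).card <
          (tX b - T'.card) * (tX (!b) - T'.card) := by
        cases b
        · exact hz
        · rw [mul_comm]
          exact hz
      rcases one hT hX hY b hz' hMY with h1 | h1
      · exact Or.inl (Or.inr h1)
      · right
        left
        refine ⟨rfl, hT.same, h1.1, ?_, ?_⟩
        · intro j hj
          rw [Finset.mem_sdiff] at hj
          rw [dec_of_not_mem hj.2]
          exact hY j hj.1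
        · cases b
          · exact h1.2
          · have h2 := h1.2
            rw [mul_comm] at h2
            exact h2
    · by_cases hall : MX = Finset.univ
      · left
        right
        rw [hall, Finset.sdiff_self]
        apply R00 hT.same
        intro j hj
        have := hY j hj
        have := le_dec tY MY j
        omega
      · have hemp : MX = ∅ := by
          rw [Finset.eq_empty_iff_forall_notMem]
          intro b hbM
          by_cases hnb : (!b) ∈ MX
          · apply hall
            ext c
            simp only [Finset.mem_univ, iff_true]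
            cases b <;> cases c <;> simp_all
          · apply hb
            refine ⟨b, ?_⟩
            ext c
            rw [Finset.mem_singleton]
            constructor
            · intro hc
              by_contra hcb
              have : c = !b := by cases c <;> cases b <;> simp_all
              rw [this] at hc
              exact hnb hc
            · rintro rfl
              exact hbM
        subst hemp
        right
        left
        have e1 : ∀ b, dec tX ∅ b = tX b := fun b => dec_of_not_mem (by simp)
        refine ⟨rfl, hT.same, fun b => by rw [e1]; exact hX b, ?_, ?_⟩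
        · intro j hj
          rw [Finset.mem_sdiff] at hj
          rw [dec_of_not_mem hj.2]
          exact hY j hj.1
        · rw [e1, e1]
          refine lt_of_le_of_lt (Finset.card_le_card ?_) hz
          intro j hj
          rw [Finset.mem_filter, Finset.mem_sdiff] at hj
          rw [Finset.mem_filter]
          rw [dec_of_not_mem hj.1.2] at hj
          exact ⟨hj.1.1, hj.2⟩
  · left
    refine ⟨MT.min' hne, Finset.min'_mem _ _, Or.inl ?_⟩
    have hmem : MT.min' hne ∈ T' := hMT (Finset.min'_mem _ _)
    have hcard : (T'.erase (MT.min' hne)).card = T'.card - 1 := Finset.card_erase_of_mem hmem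
    have hpos : 0 < T'.card := Finset.card_pos.mpr ⟨_, hmem⟩
    refine ⟨rfl, hT.pass hMT hne, ?_, ?_, ?_⟩
    · intro b
      have := hX b
      have := le_dec tX MX b
      omega
    · intro j hj
      have := hY j hj
      have := le_dec tY MY j
      omega
    · have h1 : ((Y'.filter (fun j => dec tY MY j = (T'.erase (MT.min' hne)).card + 2)).card) ≤
          (Y'.filter (fun j => tY j = T'.card + 2)).card := by
        apply Finset.card_le_card
        intro j hj
        rw [Finset.mem_filter] at hj ⊢
        have := hY j hj.1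
        have := le_dec tY MY j
        refine ⟨hj.1, ?_⟩
        omega
      refine lt_of_le_of_lt h1 (lt_of_lt_of_le hz ?_)
      have hf := le_dec tX MX false
      have ht := le_dec tX MX true
      have hf' := hX false
      have ht' := hX true
      apply Nat.mul_le_mul <;> omega

end R2

section
variable {T' : Finset (Fin q)} {Y' : Finset (Fin m)} {tT : Fin q → ℕ} {tX : Bool → ℕ}
  {tY : Fin m → ℕ}

/-- Module R2. -/
theorem R20 (hT : TC 0 T' tT) (hX : ∀ b, T'.card + 1 ≤ tX b)
    (hY : ∀ j ∈ Y', T'.card + 2 ≤ tY j)
    (hz : (Y'.filter (fun j => tY j = T'.card + 2)).card <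
      (tX false - T'.card) * (tX true - T'.card)) : PP T' Finset.univ Y' tT tX tY :=
  PP.of_inv R2.Inv (fun _ _ _ _ _ _ h => R2.step h) ⟨rfl, hT, hX, hY, hz⟩

end

end Pool.Agent.Helper95.SP
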