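import Pool.Agent.Helper95.SP.R0
import Pool.Agent.Helper95.SP.R1
import Pool.Agent.Helper95.SP.R2

set_option autoImplicit false

/-!
Painter's strategy with both vertices of the first side unfinished, and Painter's theorem.
-/

namespace Pool.Agent.Helper95.SP

open Set Pool.Agent.Helper37.Paint

variable {q m : ℕ}

/-! ### arithmetic -/

theorem r3_ar1 {k A B m1 s : ℕ} (h : m1 + k ≤ (A - k) * (B - k) * (k + 1) + A + B)
    (hs : ¬ s ≤ (B - k) * (k + 1)) (hsm : s ≤ m1) :
    1 ≤ A ∧ (m1 - s) + k ≤ (A - 1 - k) * (B - k) * (k + 1) + (A - 1) + B := by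
  push Not at hs
  rcases Nat.lt_or_ge k A with hA | hA
  · obtain ⟨p, rfl⟩ : ∃ p, A = k + 1 + p := ⟨A - (k + 1), by omega⟩
    refine ⟨by omega, ?_⟩
    have e1 : k + 1 + p - k = p + 1 := by omega
    have e2 : k + 1 + p - 1 - k = p := by omega
    rw [e1] at h
    rw [e2]
    have e3 : (p + 1) * (B - k) * (k + 1) = p * (B - k) * (k + 1) + (B - k) * (k + 1) := by ring
    rw [e3] at h
    omega
  · have e1 : A - k = 0 := by omega
    rw [e1, zero_mul, zero_mul] at h
    have h1 : B - k ≤ (B - k) * (k + 1) := Nat.le_mul_of_pos_right _ (Nat.succ_pos k)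
    have e2 : A - 1 - k = 0 := by omega
    rw [e2, zero_mul, zero_mul]
    omega

theorem r3_ar2 {k A B m1 s : ℕ} (hk : 1 ≤ k)
    (h : m1 + k ≤ (A - k) * (B - k) * (k + 1) + A + B)
    (hs : ¬ s + (k - 1) ≤ (A - (k - 1)) * (B - (k - 1)) * (k - 1 + 1) + A + B) (hsm : s ≤ m1) :
    k ≤ A ∧ k ≤ B ∧ m1 - s < (A + 1 - k) * (B + 1 - k) := by
  push Not at hs
  obtain ⟨l, rfl⟩ : ∃ l, k = l + 1 := ⟨k - 1, by omega⟩
  simp only [Nat.add_sub_cancel] at hs
  rcases Nat.lt_or_ge A (l + 1) with hA | hA
  · have e1 : A - (l + 1) = 0 := by omega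
    rw [e1, zero_mul, zero_mul] at h
    omega
  rcases Nat.lt_or_ge B (l + 1) with hB | hB
  · have e1 : B - (l + 1) = 0 := by omega
    rw [e1, mul_zero, zero_mul] at h
    omega
  refine ⟨hA, hB, ?_⟩
  obtain ⟨u, rfl⟩ : ∃ u, A = l + 1 + u := ⟨A - (l + 1), by omega⟩
  obtain ⟨v, rfl⟩ : ∃ v, B = l + 1 + v := ⟨B - (l + 1), by omega⟩
  have e1 : l + 1 + u - (l + 1) = u := by omega
  have e2 : l + 1 + v - (l + 1) = v := by omega
  have e3 : l + 1 + u - l = u + 1 := by omega
  have e4 : l + 1 + v - l = v + 1 := by omega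
  have e5 : l + 1 + u + 1 - (l + 1) = u + 1 := by omega
  have e6 : l + 1 + v + 1 - (l + 1) = v + 1 := by omega
  rw [e1, e2] at h
  rw [e3, e4] at hs
  rw [e5, e6]
  have h1 : (u + 1) * (v + 1) * (l + 1) = u * v * (l + 1) + (u + v + 1) * (l + 1) := by ring
  have h2 : u * v * (l + 1 + 1) = u * v * (l + 1) + u * v := by ring
  have h3 : (u + 1) * (v + 1) = u * v + u + v + 1 := by ring
  rw [h1] at hs
  rw [h2] at h
  rw [h3]
  omega

theorem r3_ar3 {k A B m1 s : ℕ} (hk : 1 ≤ k)
    (h : m1 + k ≤ (A - k) * (B - k) * (k + 1) + A + B)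
    (hna : ¬ (k ≤ B ∧ s ≤ B - k))
    (hnb : ¬ (k + 1 ≤ A ∧ k ≤ B ∧ m1 - s < (A - k) * (B + 1 - k))) (hsm : s ≤ m1) :
    1 ≤ A ∧ s + (k - 1) ≤ (A - 1 - (k - 1)) * (B - (k - 1)) * (k - 1 + 1) + (A - 1) + B := by
  obtain ⟨l, rfl⟩ : ∃ l, k = l + 1 := ⟨k - 1, by omega⟩
  simp only [Nat.add_sub_cancel]
  have hna' : l + 1 ≤ B → B - (l + 1) < s := fun h => not_le.1 fun h' => hna ⟨h, h'⟩
  rcases Nat.lt_or_ge A (l + 2) with hA | hA
  · have e1 : A - (l + 1) = 0 := by omega
    rw [e1, zero_mul, zero_mul] at h
    have hA1 : 1 ≤ A := by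
      by_contra hcon
      have h1 : l + 1 ≤ B := by omega
      have := hna' h1
      omega
    refine ⟨hA1, ?_⟩
    have h0 : 0 ≤ (A - 1 - l) * (B - l) * (l + 1) := Nat.zero_le _
    omega
  · obtain ⟨p, rfl⟩ : ∃ p, A = l + 2 + p := ⟨A - (l + 2), by omega⟩
    refine ⟨by omega, ?_⟩
    have e1 : l + 2 + p - (l + 1) = p + 1 := by omega
    have e2 : l + 2 + p - 1 - l = p + 1 := by omega
    rw [e1] at h hnb
    rw [e2]
    rcases Nat.lt_or_ge B (l + 1) with hB | hB
    · have e3 : B - (l + 1) = 0 := by omega
      rw [e3, mul_zero, zero_mul] at h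
      have h0 : 0 ≤ (p + 1) * (B - l) * (l + 1) := Nat.zero_le _
      omega
    · obtain ⟨v, rfl⟩ : ∃ v, B = l + 1 + v := ⟨B - (l + 1), by omega⟩
      have e3 : l + 1 + v - (l + 1) = v := by omega
      have e4 : l + 1 + v + 1 - (l + 1) = v + 1 := by omega
      have e5 : l + 1 + v - l = v + 1 := by omega
      rw [e3] at h
      rw [e4] at hnb
      rw [e5]
      have hnb' : (p + 1) * (v + 1) ≤ m1 - s := by
        by_contra hcon
        exact hnb ⟨by omega, by omega, not_le.1 hcon⟩
      have h1 : (p + 1) * v * (l + 1 + 1) = (p + 1) * v * (l + 1) + (p + 1) * v := by ring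
      have h2 : (p + 1) * (v + 1) * (l + 1) = (p + 1) * v * (l + 1) + (p + 1) * (l + 1) := by ring
      have h3 : (p + 1) * (v + 1) = (p + 1) * v + (p + 1) := by ring
      rw [h1] at h
      rw [h2]
      rw [h3] at hnb'
      have h4 : 0 ≤ (p + 1) * (l + 1) := Nat.zero_le _
      omega

theorem r3_not {b b' : Bool} (h : ¬ b' = b) : b' = !b := by
  revert b b'
  decide

theorem r3_prod (u : Bool → ℕ) (k : ℕ) (b : Bool) :
    (u false - k) * (u true - k) = (u b - k) * (u (!b) - k) := by
  cases b
  · rfl
  · exact mul_comm _ _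

/-! ### counting -/

theorem r3_cnt1 {Y' MY : Finset (Fin m)} {tY : Fin m → ℕ} {k : ℕ}
    (hY : ∀ j ∈ Y', k + 2 ≤ tY j) :
    (Y'.filter (fun j => dec tY MY j = k + 1)).card ≤
      (MY.filter (fun j => tY j = k + 2)).card := by
  refine Finset.card_le_card fun j hj => ?_
  rw [Finset.mem_filter] at hj ⊢
  obtain ⟨h1, h2⟩ := hj
  have h3 := hY j h1
  by_cases hj : j ∈ MY
  · rw [dec_of_mem hj] at h2
    exact ⟨hj, by omega⟩
  · rw [dec_of_not_mem hj] at h2
    omega

theorem r3_cnt2 {Y' MY : Finset (Fin m)} {tY : Fin m → ℕ} {k : ℕ} (hM : MY ⊆ Y') :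
    ((Y' \ MY).filter (fun j => dec tY MY j = k + 2)).card +
      (MY.filter (fun j => tY j = k + 2)).card ≤ (Y'.filter (fun j => tY j = k + 2)).card := by
  rw [← Finset.card_union_of_disjoint]
  · refine Finset.card_le_card fun j hj => ?_
    rw [Finset.mem_union, Finset.mem_filter, Finset.mem_filter, Finset.mem_sdiff] at hj
    rw [Finset.mem_filter]
    rcases hj with ⟨⟨h1, h2⟩, h3⟩ | ⟨h1, h2⟩
    · rw [dec_of_not_mem h2] at h3
      exact ⟨h1, h3⟩
    · exact ⟨hM h1, h2⟩
  · rw [Finset.disjoint_left]
    intro j h1 h2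
    rw [Finset.mem_filter, Finset.mem_sdiff] at h1
    rw [Finset.mem_filter] at h2
    exact h1.1.2 h2.1

section
variable {T' : Finset (Fin q)} {Y' : Finset (Fin m)} {tT : Fin q → ℕ} {tX : Bool → ℕ}
  {tY : Fin m → ℕ}

/-- Module R3. -/
theorem R31 (hT : TC 1 T' tT) (hX : ∀ b, 1 ≤ tX b)
    (hY : ∀ j ∈ Y', T'.card + 2 ≤ tY j)
    (hz : (Y'.filter (fun j => tY j = T'.card + 2)).card + T'.card ≤
      (tX false - 1 - T'.card) * (tX true - 1 - T'.card) * (T'.card + 1) +
        (tX false - 1) + (tX true - 1)) : PP T' Finset.univ Y' tT tX tY := by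
  refine PP.of_inv (fun T' X' Y' tT tX tY => X' = Finset.univ ∧ TC 1 T' tT ∧ (∀ b, 1 ≤ tX b) ∧
    (∀ j ∈ Y', T'.card + 2 ≤ tY j) ∧ ∀ b : Bool,
      (Y'.filter (fun j => tY j = T'.card + 2)).card + T'.card ≤
      (tX b - 1 - T'.card) * (tX (!b) - 1 - T'.card) * (T'.card + 1) +
        (tX b - 1) + (tX (!b) - 1)) ?_ ⟨rfl, hT, hX, hY, ?_⟩
  swap
  · intro b
    cases b
    · exact hz
    · simp only [Bool.not_true]
      rw [mul_comm (tX true - 1 - T'.card) (tX false - 1 - T'.card)]
      omega
  clear hT hX hY hz
  rintro T' X' Y' tT tX tY ⟨rfl, hT, hX, hY, hz⟩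
  refine ⟨fun i hi => hT.one_le hi, fun b _ => hX b, fun j hj => by have := hY j hj; omega, ?_⟩
  intro MT hMT MX hMX MY hMY
  have hdec : ∀ j ∈ Y', T'.card + 1 ≤ dec tY MY j := by
    intro j hj
    have h1 := hY j hj
    have h2 := le_dec tY MY j
    omega
  have hc1 := r3_cnt1 (MY := MY) (k := T'.card) hY
  have hc2 := r3_cnt2 (k := T'.card) (tY := tY) hMY
  have hsm : (MY.filter (fun j => tY j = T'.card + 2)).card ≤
      (Y'.filter (fun j => tY j = T'.card + 2)).card := le_trans (Nat.le_add_left _ _) hc2
  have hYM : ∀ j ∈ Y' \ MY, T'.card + 2 ≤ dec tY MY j := by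
    intro j hj
    rw [Finset.mem_sdiff] at hj
    rw [dec_of_not_mem hj.2]
    exact hY j hj.1
  rcases MT.eq_empty_or_nonempty with rfl | hne
  · -- no clique vertex is presented
    by_cases hMX0 : MX = ∅
    · subst hMX0
      refine Or.inr (Or.inr (Or.inl ⟨rfl, hT.same, ?_, hYM, ?_⟩))
      · intro b
        rw [dec_of_not_mem (Finset.notMem_empty b)]
        exact hX b
      · intro b
        rw [dec_of_not_mem (Finset.notMem_empty b), dec_of_not_mem (Finset.notMem_empty (!b))]
        have := hz b
        omega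
    by_cases hMX1 : MX = Finset.univ
    · subst hMX1
      refine Or.inr (Or.inl (Or.inr ?_))
      rw [Finset.sdiff_self]
      refine R01 hT.same (fun j hj => ?_) ?_
      · have := hdec j hj
        omega
      · rw [Finset.filter_false_of_mem (fun j hj => by have := hdec j hj; omega)]
        simp
    · obtain ⟨b, rfl⟩ : ∃ b, MX = {b} := by
        revert MX
        decide
      have hnb : (!b) ∉ ({b} : Finset Bool) := by cases b <;> simp
      have hsd : Finset.univ \ ({b} : Finset Bool) = {!b} := by cases b <;> decide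
      have hzb := hz b
      by_cases hs : (MY.filter (fun j => tY j = T'.card + 2)).card ≤
          (tX (!b) - 1 - T'.card) * (T'.card + 1)
      · refine Or.inr (Or.inl (Or.inr ?_))
        rw [hsd]
        refine R11 (!b) hT.same ?_ hdec ?_
        · rw [dec_of_not_mem hnb]
          exact hX _
        · rw [dec_of_not_mem hnb]
          exact hc1.trans hs
      · obtain ⟨h1, h2⟩ := r3_ar1 hzb hs hsm
        refine Or.inr (Or.inr (Or.inl ⟨rfl, hT.same, ?_, hYM, ?_⟩))
        · intro b'
          have := hX b'
          by_cases hb : b' ∈ ({b} : Finset Bool)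
          · have hb' := Finset.mem_singleton.1 hb
            subst hb'
            rw [dec_of_mem hb]
            exact h1
          · rw [dec_of_not_mem hb]
            exact this
        · have key : ((Y' \ MY).filter (fun j => dec tY MY j = T'.card + 2)).card + T'.card ≤
              (dec tX {b} b - 1 - T'.card) * (dec tX {b} (!b) - 1 - T'.card) * (T'.card + 1) +
              (dec tX {b} b - 1) + (dec tX {b} (!b) - 1) := by
            rw [dec_of_mem (Finset.mem_singleton_self b), dec_of_not_mem hnb]
            omega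
          intro b'
          by_cases hb : b' = b
          · subst hb
            exact key
          · have hb' : b' = !b := r3_not (by assumption)
            subst hb'
            rw [Bool.not_not, mul_comm (dec tX {b} (!b) - 1 - T'.card)]
            omega
  · -- some clique vertex is presented
    have hi0 : MT.min' hne ∈ T' := hMT (Finset.min'_mem MT hne)
    have hk1 : 1 ≤ T'.card := Finset.card_pos.2 ⟨_, hi0⟩
    have hck : (T'.erase (MT.min' hne)).card = T'.card - 1 := Finset.card_erase_of_mem hi0
    have hnon : TC 0 T' (dec tT MT) := TC.non (w := 0) hT MT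
    have hpass : TC 1 (T'.erase (MT.min' hne)) (dec tT MT) := hT.pass hMT hne
    have hYp : ∀ j ∈ Y', (T'.erase (MT.min' hne)).card + 2 ≤ dec tY MY j := by
      intro j hj
      have := hdec j hj
      omega
    have hcp : (Y'.filter (fun j => dec tY MY j = (T'.erase (MT.min' hne)).card + 2)).card ≤
        (MY.filter (fun j => tY j = T'.card + 2)).card := by
      rw [hck, show T'.card - 1 + 2 = T'.card + 1 by omega]
      exact hc1
    by_cases hMX0 : MX = ∅
    · subst hMX0
      have hzf := hz false
      simp only [Bool.not_false] at hzf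
      by_cases hs : (MY.filter (fun j => tY j = T'.card + 2)).card + (T'.card - 1) ≤
          (tX false - 1 - (T'.card - 1)) * (tX true - 1 - (T'.card - 1)) * (T'.card - 1 + 1) +
            (tX false - 1) + (tX true - 1)
      · refine Or.inl ⟨MT.min' hne, Finset.min'_mem MT hne, Or.inl ⟨rfl, hpass, ?_, hYp, ?_⟩⟩
        · intro b
          rw [dec_of_not_mem (Finset.notMem_empty b)]
          exact hX b
        · intro b
          rw [dec_of_not_mem (Finset.notMem_empty b), dec_of_not_mem (Finset.notMem_empty (!b)),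
            hck]
          rw [hck] at hcp
          cases b
          · simp only [Bool.not_false]
            omega
          · simp only [Bool.not_true]
            rw [mul_comm (tX true - 1 - (T'.card - 1))]
            omega
      · obtain ⟨h1, h2, h3⟩ := r3_ar2 hk1 hzf hs hsm
        refine Or.inr (Or.inr (Or.inr ?_))
        have hXf := hX false
        have hXt := hX true
        refine R20 hnon ?_ hYM ?_
        · intro b
          rw [dec_of_not_mem (Finset.notMem_empty b)]
          cases b
          · omega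
          · omega
        · rw [dec_of_not_mem (Finset.notMem_empty false),
            dec_of_not_mem (Finset.notMem_empty true)]
          rw [show tX false - 1 + 1 - T'.card = tX false - T'.card by omega,
            show tX true - 1 + 1 - T'.card = tX true - T'.card by omega] at h3
          omega
    by_cases hMX1 : MX = Finset.univ
    · subst hMX1
      refine Or.inr (Or.inl (Or.inr ?_))
      rw [Finset.sdiff_self]
      exact R00 hnon hdec
    · obtain ⟨b, rfl⟩ : ∃ b, MX = {b} := by
        revert MX
        decide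
      have hnb : (!b) ∉ ({b} : Finset Bool) := by cases b <;> simp
      have hsd : Finset.univ \ ({b} : Finset Bool) = {!b} := by cases b <;> decide
      have hzb := hz b
      have hXb := hX b
      have hXb' := hX (!b)
      by_cases ha : T'.card ≤ tX (!b) - 1 ∧
          (MY.filter (fun j => tY j = T'.card + 2)).card ≤ tX (!b) - 1 - T'.card
      · refine Or.inr (Or.inl (Or.inr ?_))
        rw [hsd]
        refine R10 (!b) hnon hdec ?_
        rw [dec_of_not_mem hnb]
        omega
      by_cases hb : T'.card + 1 ≤ tX b - 1 ∧ T'.card ≤ tX (!b) - 1 ∧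
          (Y'.filter (fun j => tY j = T'.card + 2)).card -
            (MY.filter (fun j => tY j = T'.card + 2)).card <
          (tX b - 1 - T'.card) * (tX (!b) - 1 + 1 - T'.card)
      · refine Or.inr (Or.inr (Or.inr ?_))
        obtain ⟨h1, h2, h3⟩ := hb
        rw [show tX (!b) - 1 + 1 - T'.card = tX (!b) - T'.card by omega] at h3
        refine R20 hnon ?_ hYM ?_
        · intro b'
          by_cases hb' : b' = b
          · subst hb'
            rw [dec_of_mem (Finset.mem_singleton_self _)]
            omega
          · have hb'' : b' = !b := r3_not (by assumption)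
            subst hb''
            rw [dec_of_not_mem hnb]
            omega
        · rw [r3_prod (dec tX {b}) T'.card b, dec_of_mem (Finset.mem_singleton_self _),
            dec_of_not_mem hnb]
          omega
      · obtain ⟨h1, h2⟩ := r3_ar3 hk1 hzb ha hb hsm
        refine Or.inl ⟨MT.min' hne, Finset.min'_mem MT hne, Or.inl ⟨rfl, hpass, ?_, hYp, ?_⟩⟩
        · intro b'
          by_cases hb' : b' = b
          · subst hb'
            rw [dec_of_mem (Finset.mem_singleton_self _)]
            exact h1
          · have hb'' : b' = !b := r3_not (by assumption)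
            subst hb''
            rw [dec_of_not_mem hnb]
            exact hXb'
        · have key : (Y'.filter (fun j => dec tY MY j =
                (T'.erase (MT.min' hne)).card + 2)).card + (T'.erase (MT.min' hne)).card ≤
              (dec tX {b} b - 1 - (T'.erase (MT.min' hne)).card) *
                (dec tX {b} (!b) - 1 - (T'.erase (MT.min' hne)).card) *
                ((T'.erase (MT.min' hne)).card + 1) +
              (dec tX {b} b - 1) + (dec tX {b} (!b) - 1) := by
            rw [dec_of_mem (Finset.mem_singleton_self b), dec_of_not_mem hnb]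
            rw [hck] at hcp ⊢
            omega
          intro b'
          by_cases hb' : b' = b
          · subst hb'
            exact key
          · have hb'' : b' = !b := r3_not (by assumption)
            subst hb''
            rw [Bool.not_not,
              mul_comm (dec tX {b} (!b) - 1 - (T'.erase (MT.min' hne)).card)]
            omega

/-- Module R3. -/
theorem painter (q m : ℕ) (hm : m ≤ 2 * q + 3) :
    PW (gr q m) (asm (fun i => i + 2) (fun _ => q + 2) (fun _ => q + 2)) (fun _ => 1) := by
  have h : PP (Finset.univ : Finset (Fin q)) Finset.univ (Finset.univ : Finset (Fin m))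
      (fun i => i + 2) (fun _ => q + 2) (fun _ => q + 2) := by
    refine R31 ?_ (fun _ => by omega) (fun j _ => ?_) ?_
    · intro i _
      have h1 : (Finset.univ.filter (fun i' : Fin q => i' ≤ i)).card = i + 1 := by
        rw [Finset.filter_ge_eq_Iic]
        exact Fin.card_Iic i
      rw [h1]
    · rw [Finset.card_univ, Fintype.card_fin]
    · refine (Nat.add_le_add_right (Finset.card_filter_le _ _) _).trans ?_
      rw [Finset.card_univ, Fintype.card_fin, Finset.card_univ, Fintype.card_fin,
        show q + 2 - 1 - q = 1 by omega]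
      omega
  unfold PP at h
  have e : (asm (ind (Finset.univ : Finset (Fin q))) (ind Finset.univ)
      (ind (Finset.univ : Finset (Fin m))) : Vx q m → ℕ) = fun _ => 1 := by
    funext v
    rcases v with i | b | j <;> simp [asm, ind]
  rw [e] at h
  exact h

end

end Pool.Agent.Helper95.SP
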