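import Pool.Agent.Helper95.SP.First
import Pool.Agent.Helper95.SP.R3
import Pool.Agent.Helper37.PaintBase

set_option autoImplicit false

/-!
# A graph which is 769-paintable but not (769 b + 1 : b)-paintable for b = 50 * 768
-/

namespace Pool.Agent.Helper95.SP

open Set Pool.Agent.Helper37.Paint

/-- The answer. -/
theorem main : ∃ (V : Type) (_ : Fintype V) (G : SimpleGraph V) (k b : ℕ), 0 < b ∧
    PW G (fun _ => k) (fun _ => 1) ∧ ¬ PW G (fun _ => k * b + 1) (fun _ => b) := by
  have h1 := painter 767 1537 (by norm_num)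
  have h2 := lister 767 1537 (50 * 768) (by norm_num) (by norm_num)
  have h3 : ¬ PW (gr 767 1537) (fun v => (50 * 768) *
      (asm (fun i => i + 2) (fun _ => 767 + 2) (fun _ => 767 + 2) : Vx 767 1537 → ℕ) v + 1)
      (fun _ => 50 * 768) := by
    have e1 : (fun v => (50 * 768) *
        (asm (fun i => i + 2) (fun _ => 767 + 2) (fun _ => 767 + 2) : Vx 767 1537 → ℕ) v + 1) =
        asm (fun i => (50 * 768) * (i + 2) + 1) (fun _ => (50 * 768) * (767 + 2) + 1)
          (fun _ => (50 * 768) * (767 + 2) + 1) := by
      funext v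
      rcases v with i | b | j <;> rfl
    have e2 : (fun _ : Vx 767 1537 => 50 * 768) =
        asm (fun _ => 50 * 768) (fun _ => 50 * 768) (fun _ => 50 * 768) := by
      funext v
      rcases v with i | b | j <;> rfl
    rw [e1, e2]
    exact h2
  obtain ⟨V, hV, G, hG1, hG2⟩ := exists_uniform (50 * 768) 1 769 (by norm_num) (by norm_num) 767
    (Vx 767 1537) (gr 767 1537) _ (by
      rintro (i | b | j)
      · have := i.isLt
        change (i : ℕ) + 2 ≤ 769
        omega
      · exact le_rfl
      · exact le_rfl) (by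
      rintro (i | b | j)
      · change 769 ≤ (i : ℕ) + 2 + 767
        omega
      · change 769 ≤ 767 + 2 + 767
        omega
      · change 769 ≤ 767 + 2 + 767
        omega) h1 h3
  exact ⟨V, hV, G, 769, 50 * 768, by norm_num, hG1, hG2⟩

end Pool.Agent.Helper95.SP
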