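import Pool.Agent.Helper95.SP.Base

set_option autoImplicit false

/-!
The game with one colour per vertex: Painter's invariants.
-/

namespace Pool.Agent.Helper95.SP

open Set Pool.Agent.Helper37.Paint

variable {q m : ℕ}

/-- The needs, when exactly the members of `S` are unfinished (one colour per vertex). -/
def ind {α : Type} [DecidableEq α] (S : Finset α) : α → ℕ := fun a => if a ∈ S then 1 else 0

/-- Painter wins the game with one colour per vertex, when the unfinished vertices are `T', X', Y'`
and the tokens are `tT, tX, tY`. -/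
def PP (T' : Finset (Fin q)) (X' : Finset Bool) (Y' : Finset (Fin m)) (tT : Fin q → ℕ)
    (tX : Bool → ℕ) (tY : Fin m → ℕ) : Prop :=
  PW (gr q m) (asm tT tX tY) (asm (ind T') (ind X') (ind Y'))

/-- Painter's invariants. To a set `MT, MX, MY` of unfinished vertices Painter answers by one
clique vertex, or by `MX`, or by `MY`. -/
theorem PP.of_inv (P : Finset (Fin q) → Finset Bool → Finset (Fin m) → (Fin q → ℕ) →
      (Bool → ℕ) → (Fin m → ℕ) → Prop)
    (hP : ∀ T' X' Y' tT tX tY, P T' X' Y' tT tX tY →
      (∀ i ∈ T', 1 ≤ tT i) ∧ (∀ b ∈ X', 1 ≤ tX b) ∧ (∀ j ∈ Y', 1 ≤ tY j) ∧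
      ∀ MT ⊆ T', ∀ MX ⊆ X', ∀ MY ⊆ Y',
        (∃ i ∈ MT, P (T'.erase i) X' Y' (dec tT MT) (dec tX MX) (dec tY MY) ∨
          PP (T'.erase i) X' Y' (dec tT MT) (dec tX MX) (dec tY MY)) ∨
        (P T' (X' \ MX) Y' (dec tT MT) (dec tX MX) (dec tY MY) ∨
          PP T' (X' \ MX) Y' (dec tT MT) (dec tX MX) (dec tY MY)) ∨
        (P T' X' (Y' \ MY) (dec tT MT) (dec tX MX) (dec tY MY) ∨
          PP T' X' (Y' \ MY) (dec tT MT) (dec tX MX) (dec tY MY)))
    {T' : Finset (Fin q)} {X' : Finset Bool} {Y' : Finset (Fin m)} {tT : Fin q → ℕ}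
    {tX : Bool → ℕ} {tY : Fin m → ℕ} (h : P T' X' Y' tT tX tY) : PP T' X' Y' tT tX tY := by
  classical
  refine PW_of_inv (G := gr q m) (fun t n => PW (gr q m) t n ∨
    ∃ (T' : Finset (Fin q)) (X' : Finset Bool) (Y' : Finset (Fin m)) (tT : Fin q → ℕ)
      (tX : Bool → ℕ) (tY : Fin m → ℕ), P T' X' Y' tT tX tY ∧ t = asm tT tX tY ∧
      n = asm (ind T') (ind X') (ind Y')) ?_ (Or.inr ⟨T', X', Y', tT, tX, tY, h, rfl, rfl⟩)
  clear h T' X' Y' tT tX tY
  rintro t n (h | ⟨T', X', Y', tT, tX, tY, h, rfl, rfl⟩)
  · obtain ⟨h0, h1⟩ := h.inv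
    refine ⟨h0, fun M hM hn => ?_⟩
    obtain ⟨I, hI, hind, hw⟩ := h1 M hM hn
    exact ⟨I, hI, hind, Or.inl hw⟩
  · obtain ⟨h1, h2, h3, h4⟩ := hP T' X' Y' tT tX tY h
    refine ⟨?_, ?_⟩
    · rintro (i | b | j)
      · change (if i ∈ T' then 1 else 0) ≤ tT i
        split_ifs with hi
        · exact h1 i hi
        · exact Nat.zero_le _
      · change (if b ∈ X' then 1 else 0) ≤ tX b
        split_ifs with hi
        · exact h2 b hi
        · exact Nat.zero_le _
      · change (if j ∈ Y' then 1 else 0) ≤ tY j
        split_ifs with hi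
        · exact h3 j hi
        · exact Nat.zero_le _
    · intro M _ hM
      let MT : Finset (Fin q) := Finset.univ.filter fun i => Vx.T i ∈ M
      let MX : Finset Bool := Finset.univ.filter fun b => Vx.X b ∈ M
      let MY : Finset (Fin m) := Finset.univ.filter fun j => Vx.Y j ∈ M
      have hMT : ∀ i, i ∈ MT ↔ Vx.T i ∈ M := fun i => by simp [MT]
      have hMX : ∀ b, b ∈ MX ↔ Vx.X b ∈ M := fun b => by simp [MX]
      have hMY : ∀ j, j ∈ MY ↔ Vx.Y j ∈ M := fun j => by simp [MY]
      have s1 : MT ⊆ T' := by
        intro i hi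
        have h5 := hM _ ((hMT i).1 hi)
        by_contra hcon
        change 0 < (if i ∈ T' then 1 else 0) at h5
        rw [if_neg hcon] at h5
        exact absurd h5 (lt_irrefl _)
      have s2 : MX ⊆ X' := by
        intro i hi
        have h5 := hM _ ((hMX i).1 hi)
        by_contra hcon
        change 0 < (if i ∈ X' then 1 else 0) at h5
        rw [if_neg hcon] at h5
        exact absurd h5 (lt_irrefl _)
      have s3 : MY ⊆ Y' := by
        intro i hi
        have h5 := hM _ ((hMY i).1 hi)
        by_contra hcon
        change 0 < (if i ∈ Y' then 1 else 0) at h5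
        rw [if_neg hcon] at h5
        exact absurd h5 (lt_irrefl _)
      have ht : asm tT tX tY - one M = asm (dec tT MT) (dec tX MX) (dec tY MY) := by
        funext v
        rcases v with i | b | j
        · by_cases hi : Vx.T i ∈ M
          · rw [Pi.sub_apply, one_le_of_mem hi]
            exact (dec_of_mem ((hMT i).2 hi)).symm
          · rw [Pi.sub_apply, one_of_not_mem hi]
            exact (dec_of_not_mem (fun hh => hi ((hMT i).1 hh))).symm
        · by_cases hi : Vx.X b ∈ M
          · rw [Pi.sub_apply, one_le_of_mem hi]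
            exact (dec_of_mem ((hMX b).2 hi)).symm
          · rw [Pi.sub_apply, one_of_not_mem hi]
            exact (dec_of_not_mem (fun hh => hi ((hMX b).1 hh))).symm
        · by_cases hi : Vx.Y j ∈ M
          · rw [Pi.sub_apply, one_le_of_mem hi]
            exact (dec_of_mem ((hMY j).2 hi)).symm
          · rw [Pi.sub_apply, one_of_not_mem hi]
            exact (dec_of_not_mem (fun hh => hi ((hMY j).1 hh))).symm
      rcases h4 MT s1 MX s2 MY s3 with ⟨i₀, hi₀, h5⟩ | h5 | h5
      · refine ⟨{Vx.T i₀}, ?_, ?_, ?_⟩
        · rintro v rfl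
          exact (hMT i₀).1 hi₀
        · rintro u rfl v rfl hne
          exact absurd rfl hne
        · have hn : asm (ind T') (ind X') (ind Y') - one ({Vx.T i₀} : Set (Vx q m)) =
              asm (ind (T'.erase i₀)) (ind X') (ind Y') := by
            funext v
            rcases v with i | b | j
            · by_cases hi : i = i₀
              · subst hi
                rw [Pi.sub_apply, one_le_of_mem (show Vx.T i ∈ ({Vx.T i} : Set (Vx q m)) from rfl)]
                change (if i ∈ T' then 1 else 0) - 1 = (if i ∈ T'.erase i then 1 else 0)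
                rw [if_pos (s1 hi₀), if_neg (by simp)]
              · rw [Pi.sub_apply, one_of_not_mem (show Vx.T i ∉ ({Vx.T i₀} : Set (Vx q m)) from
                  fun hh => hi (by cases hh; rfl))]
                change (if i ∈ T' then 1 else 0) - 0 = (if i ∈ T'.erase i₀ then 1 else 0)
                have : i ∈ T'.erase i₀ ↔ i ∈ T' := by simp [hi]
                simp only [this, Nat.sub_zero]
            · rw [Pi.sub_apply, one_of_not_mem (show Vx.X b ∉ ({Vx.T i₀} : Set (Vx q m)) from
                  fun hh => by cases hh)]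
              rfl
            · rw [Pi.sub_apply, one_of_not_mem (show Vx.Y j ∉ ({Vx.T i₀} : Set (Vx q m)) from
                  fun hh => by cases hh)]
              rfl
          rw [ht, hn]
          rcases h5 with h5 | h5
          · exact Or.inr ⟨_, _, _, _, _, _, h5, rfl, rfl⟩
          · exact Or.inl h5
      · let I : Set (Vx q m) := fun v => match v with
          | .T _ => False
          | .X b => b ∈ MX
          | .Y _ => False
        refine ⟨I, ?_, ?_, ?_⟩
        · rintro (i | b | j) hv
          · exact hv.elim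
          · exact (hMX b).1 hv
          · exact hv.elim
        · rintro (i | b | j) hu (i' | b' | j') hv _ hadj
          · exact hu.elim
          · exact hu.elim
          · exact hu.elim
          · exact hv.elim
          · exact hadj
          · exact hv.elim
          · exact hu.elim
          · exact hu.elim
          · exact hu.elim
        · have hn : asm (ind T') (ind X') (ind Y') - one I =
              asm (ind T') (ind (X' \ MX)) (ind Y') := by
            funext v
            rcases v with i | b | j
            · rw [Pi.sub_apply, one_of_not_mem (show Vx.T i ∉ I from fun hh => hh)]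
              rfl
            · by_cases hb : b ∈ MX
              · rw [Pi.sub_apply, one_le_of_mem (show Vx.X b ∈ I from hb)]
                change (if b ∈ X' then 1 else 0) - 1 = (if b ∈ X' \ MX then 1 else 0)
                rw [if_pos (s2 hb), if_neg (by simp [hb])]
              · rw [Pi.sub_apply, one_of_not_mem (show Vx.X b ∉ I from hb)]
                change (if b ∈ X' then 1 else 0) - 0 = (if b ∈ X' \ MX then 1 else 0)
                have : b ∈ X' \ MX ↔ b ∈ X' := by simp [hb]
                simp only [this, Nat.sub_zero]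
            · rw [Pi.sub_apply, one_of_not_mem (show Vx.Y j ∉ I from fun hh => hh)]
              rfl
          rw [ht, hn]
          rcases h5 with h5 | h5
          · exact Or.inr ⟨_, _, _, _, _, _, h5, rfl, rfl⟩
          · exact Or.inl h5
      · let I : Set (Vx q m) := fun v => match v with
          | .T _ => False
          | .X _ => False
          | .Y j => j ∈ MY
        refine ⟨I, ?_, ?_, ?_⟩
        · rintro (i | b | j) hv
          · exact hv.elim
          · exact hv.elim
          · exact (hMY j).1 hv
        · rintro (i | b | j) hu (i' | b' | j') hv _ hadj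
          · exact hu.elim
          · exact hu.elim
          · exact hu.elim
          · exact hu.elim
          · exact hu.elim
          · exact hu.elim
          · exact hv.elim
          · exact hv.elim
          · exact hadj
        · have hn : asm (ind T') (ind X') (ind Y') - one I =
              asm (ind T') (ind X') (ind (Y' \ MY)) := by
            funext v
            rcases v with i | b | j
            · rw [Pi.sub_apply, one_of_not_mem (show Vx.T i ∉ I from fun hh => hh)]
              rfl
            · rw [Pi.sub_apply, one_of_not_mem (show Vx.X b ∉ I from fun hh => hh)]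
              rfl
            · by_cases hb : j ∈ MY
              · rw [Pi.sub_apply, one_le_of_mem (show Vx.Y j ∈ I from hb)]
                change (if j ∈ Y' then 1 else 0) - 1 = (if j ∈ Y' \ MY then 1 else 0)
                rw [if_pos (s3 hb), if_neg (by simp [hb])]
              · rw [Pi.sub_apply, one_of_not_mem (show Vx.Y j ∉ I from hb)]
                change (if j ∈ Y' then 1 else 0) - 0 = (if j ∈ Y' \ MY then 1 else 0)
                have : j ∈ Y' \ MY ↔ j ∈ Y' := by simp [hb]
                simp only [this, Nat.sub_zero]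
          rw [ht, hn]
          rcases h5 with h5 | h5
          · exact Or.inr ⟨_, _, _, _, _, _, h5, rfl, rfl⟩
          · exact Or.inl h5

/-- The condition on the tokens of the clique. -/
def TC (w : ℕ) (T' : Finset (Fin q)) (tT : Fin q → ℕ) : Prop :=
  ∀ i ∈ T', (T'.filter (fun i' => i' ≤ i)).card + w ≤ tT i

theorem TC.one_le {w : ℕ} {T' : Finset (Fin q)} {tT : Fin q → ℕ} (h : TC w T' tT) {i : Fin q}
    (hi : i ∈ T') : 1 ≤ tT i := by
  have h1 := h i hi
  have h2 : 0 < (T'.filter (fun i' => i' ≤ i)).card :=
    Finset.card_pos.2 ⟨i, Finset.mem_filter.2 ⟨hi, le_rfl⟩⟩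
  omega

theorem TC.pass {w : ℕ} {T' : Finset (Fin q)} {tT : Fin q → ℕ} (h : TC w T' tT)
    {MT : Finset (Fin q)} (hM : MT ⊆ T') (hne : MT.Nonempty) :
    TC w (T'.erase (MT.min' hne)) (dec tT MT) := by
  intro i hi
  have hiT : i ∈ T' := Finset.mem_of_mem_erase hi
  have hne' : i ≠ MT.min' hne := Finset.ne_of_mem_erase hi
  have h1 := h i hiT
  by_cases hiM : i ∈ MT
  · rw [dec_of_mem hiM]
    have hlt : MT.min' hne < i := lt_of_le_of_ne (MT.min'_le i hiM) (Ne.symm hne')
    have hmem : MT.min' hne ∈ T'.filter (fun i' => i' ≤ i) :=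
      Finset.mem_filter.2 ⟨hM (MT.min'_mem hne), hlt.le⟩
    have e : (T'.erase (MT.min' hne)).filter (fun i' => i' ≤ i) =
        (T'.filter (fun i' => i' ≤ i)).erase (MT.min' hne) := Finset.filter_erase _ _ _
    rw [e, Finset.card_erase_of_mem hmem]
    have h2 : 0 < (T'.filter (fun i' => i' ≤ i)).card := Finset.card_pos.2 ⟨_, hmem⟩
    omega
  · rw [dec_of_not_mem hiM]
    have : ((T'.erase (MT.min' hne)).filter (fun i' => i' ≤ i)).card ≤
        (T'.filter (fun i' => i' ≤ i)).card :=
      Finset.card_le_card (Finset.filter_subset_filter _ (Finset.erase_subset _ _))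
    omega

theorem TC.non {w : ℕ} {T' : Finset (Fin q)} {tT : Fin q → ℕ} (h : TC (w + 1) T' tT)
    (MT : Finset (Fin q)) : TC w T' (dec tT MT) := by
  intro i hi
  have h1 := h i hi
  have h2 := le_dec tT MT i
  omega

theorem TC.same {w : ℕ} {T' : Finset (Fin q)} {tT : Fin q → ℕ} (h : TC w T' tT) :
    TC w T' (dec tT ∅) := by
  intro i hi
  rw [dec_of_not_mem (Finset.notMem_empty i)]
  exact h i hi

end Pool.Agent.Helper95.SP
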